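import Pool.Agent.Run7.h816.MG.Marg

/-!
# Integral matrices over fields of small degree over normal fields with few Frobenius automorphisms
-/

set_option autoImplicit false

open Finset Polynomial Module NumberField

namespace Pool.Agent.Run7.h816.MG

open Pool.Agent.H388SL Pool.Agent.H225R3.Marg Pool.Agent.Run7.h22

/-- the degree over a subfield -/
lemma natDegree_minpoly_tower (E F K : Type) [Field E] [NumberField E] [Field F] [NumberField F]
    [Field K] [NumberField K] [Algebra E F] [Algebra F K] [Algebra E K] [IsScalarTower E F K]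
    (α : K) : (minpoly E α).natDegree ≤ finrank E F * (minpoly F α).natDegree := by
  have hfE : FiniteDimensional E F := Module.Finite.of_restrictScalars_finite ℚ E F
  have hfK : FiniteDimensional F K := Module.Finite.of_restrictScalars_finite ℚ F K
  have hint : IsIntegral F α := Algebra.IsIntegral.isIntegral α
  let M := IntermediateField.adjoin F {α}
  have hM : FiniteDimensional F M := IntermediateField.adjoin.finiteDimensional hint
  have hEM : FiniteDimensional E M := FiniteDimensional.trans E F M
  have hst : IsScalarTower E M K := IsScalarTower.of_algebraMap_eq fun y => by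
    rw [IsScalarTower.algebraMap_apply E F K, IsScalarTower.algebraMap_apply E F M,
      ← IsScalarTower.algebraMap_apply F M K]
  let γ : M := IntermediateField.AdjoinSimple.gen F α
  have h1 : minpoly E α = minpoly E γ := by
    have h2 : algebraMap M K γ = α := IntermediateField.AdjoinSimple.algebraMap_gen F α
    rw [← h2]
    exact minpoly.algebraMap_eq (algebraMap M K).injective γ
  rw [h1]
  refine (minpoly.natDegree_le γ).trans ?_
  rw [← Module.finrank_mul_finrank E F M, IntermediateField.adjoin.finrank hint]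

/-- **The gap for fields of small degree over normal fields with few Frobenius automorphisms.** -/
theorem gap_frob2 : ∃ C : ℝ, 0 < C ∧ ∀ (k : Type) [Field k] [NumberField k]
    (E : Type) [Field E] [NumberField E] [IsGalois ℚ E]
    (F : Type) [Field F] [NumberField F] [Algebra E F] [Algebra k F] (D : ℕ), finrank E F ≤ D →
    ∀ (n : ℕ) (S : Finset (k →+* ℂ)) (A : Matrix (Fin n) (Fin n) (𝓞 k)) (p a : ℕ),
    p.Prime → 1 ≤ a → ∀ e : ℕ, 1 ≤ e →
    (∀ 𝔮 : Ideal (𝓞 E), 𝔮.IsPrime → (p : 𝓞 E) ∈ 𝔮 → (p : 𝓞 E) ∉ 𝔮 ^ (e + 1)) →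
    IsUnit A →
    (∀ σ : k →+* ℂ, σ ∉ S → ∀ l : ℂ, ((emb σ).mapMatrix A).charpoly.IsRoot l → ‖l‖ ≤ 1) →
    (∀ N : ℕ, 0 < N → ¬ IsNilpotent (A ^ N - 1)) →
    ∃ σ ∈ S, ∃ l : ℂ, ((emb σ).mapMatrix A).charpoly.IsRoot l ∧ 1 < ‖l‖ ∧
      (finrank ℚ k : ℝ) ≤ C * (p : ℝ) ^ (a + 1) * fac (D * n) (e * (frobSet E p (p ^ a)).ncard) *
        (S.card * Real.log ‖l‖) := by
  obtain ⟨C, hC, hrel⟩ := rel_main'
  refine ⟨C, hC, ?_⟩
  intro k _ _ E _ _ _ F _ _ _ _ D hFD n S A p a hp ha e he hram hA hout hnil
  refine gap_of' k n S A (fun R => (finrank ℚ k : ℝ) ≤ C * (p : ℝ) ^ (a + 1) *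
    fac (D * n) (e * (frobSet E p (p ^ a)).ncard) * (S.card * Real.log R)) ?_ hA hout hnil
  intro L _ _ _ x R hx0 hxi hxinv hroot hR hout' hin hdeg
  obtain ⟨K, _, _, _, iF, iL, hcomp⟩ := exists_closure k F L
  let _ : Algebra F K := iF.toAlgebra
  let _ : Algebra E K := (iF.comp (algebraMap E F)).toAlgebra
  let _ : Algebra L K := iL.toAlgebra
  have hst : IsScalarTower E F K := IsScalarTower.of_algebraMap_eq fun _ => rfl
  have halg : ∀ y : L, algebraMap L K y = iL y := fun _ => rfl
  have hU : IsU (iL x) := by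
    refine ⟨(map_ne_zero iL).mpr hx0, hxi.map iL.toIntAlgHom, ?_⟩
    rw [← map_inv₀]
    exact hxinv.map iL.toIntAlgHom
  have hroot' : ∀ m : ℕ, 0 < m → iL x ^ m ≠ 1 := by
    intro m hm h
    apply hroot m hm
    apply iL.injective
    rw [map_pow, h, map_one]
  have horb : (orbN (fixE K E) (iL x)).ncard ≤ D * n := by
    have hkL : FiniteDimensional k L := Module.Finite.of_restrictScalars_finite ℚ k L
    have hEK : FiniteDimensional E K := Module.Finite.of_restrictScalars_finite ℚ E K
    have hxk : IsIntegral k x := Algebra.IsIntegral.isIntegral x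
    have hE : IsIntegral E (iL x) := Algebra.IsIntegral.isIntegral _
    refine orb_le_degree' E (iL x) (P := minpoly E (iL x)) (minpoly.ne_zero hE) ?_
      (minpoly.aeval E (iL x))
    refine (natDegree_minpoly_tower E F K (iL x)).trans (Nat.mul_le_mul hFD ?_)
    have h0 : (minpoly k x).map (algebraMap k F) ≠ 0 := ((minpoly.monic hxk).map _).ne_zero
    have h1 : aeval (iL x) ((minpoly k x).map (algebraMap k F)) = 0 := by
      rw [aeval_def, eval₂_map]
      have h1 : (algebraMap F K).comp (algebraMap k F) = iL.comp (algebraMap k L) := hcomp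
      rw [h1, ← hom_eval₂, ← aeval_def, minpoly.aeval, map_zero]
    refine (natDegree_le_of_dvd (minpoly.dvd F (iL x) h1) h0).trans ?_
    rw [(minpoly.monic hxk).natDegree_map]
    exact (minpoly.natDegree_le x).trans hdeg
  have h1 := hrel K E p a hp ha e he hram (iL x) hU hroot' (D * n) _ horb (fixE_count E)
  have h2 : lam (iL x) = finrank L K * lam x := lam_sub L x
  have h3 : finrank ℚ k * finrank k L * finrank L K = finrank ℚ K := by
    rw [Module.finrank_mul_finrank ℚ k L, Module.finrank_mul_finrank ℚ L K]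
  have h4 := lam_few S x hR hout' hin
  have hkL : FiniteDimensional k L := Module.Finite.of_restrictScalars_finite ℚ k L
  have hLK : FiniteDimensional L K := Module.Finite.of_restrictScalars_finite ℚ L K
  have h5 : (0 : ℝ) < finrank k L := by exact_mod_cast finrank_pos
  have h6 : (0 : ℝ) < finrank L K := by exact_mod_cast finrank_pos
  have h7 : 0 ≤ C * (p : ℝ) ^ (a + 1) * fac (D * n) (e * (frobSet E p (p ^ a)).ncard) := by
    unfold fac
    positivity
  have h8 : (finrank ℚ k : ℝ) * (finrank k L * finrank L K) ≤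
      (C * (p : ℝ) ^ (a + 1) * fac (D * n) (e * (frobSet E p (p ^ a)).ncard) *
        (S.card * Real.log R)) * (finrank k L * finrank L K) := by
    calc (finrank ℚ k : ℝ) * (finrank k L * finrank L K) = ((finrank ℚ K : ℕ) : ℝ) := by
          rw [← h3]; push_cast; ring
      _ ≤ C * (p : ℝ) ^ (a + 1) * fac (D * n) (e * (frobSet E p (p ^ a)).ncard) *
          (finrank L K * lam x) := by
          rw [← h2]
          exact h1
      _ ≤ C * (p : ℝ) ^ (a + 1) * fac (D * n) (e * (frobSet E p (p ^ a)).ncard) *
          (finrank L K * (((S.card * finrank k L : ℕ) : ℝ) * Real.log R)) := by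
          gcongr
      _ = _ := by push_cast; ring
  exact le_of_mul_le_mul_right h8 (by positivity)

end Pool.Agent.Run7.h816.MG
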