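import Mathlib
import Pool.Agent.Run7.h22.Rel1

/-!
# Frobenius automorphisms above ramified primes
-/

set_option autoImplicit false

open Finset Module NumberField

namespace Pool.Agent.Run7.h816.MG

open Pool.Agent.H388SL Pool.Agent.Run7.h22

/-- the `p`-th powers of congruent elements -/
lemma pow_prime_sub {R : Type*} [CommRing R] {I : Ideal R} {p : ℕ} (hp : p.Prime) {e i : ℕ}
    (hpe : (p : R) ∈ I ^ e) {x y : R} (h : x - y ∈ I ^ i) :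
    x ^ p - y ^ p ∈ I ^ (min (p * i) (i + e)) := by
  set z := x - y with hz
  have hx : x = z + y := by rw [hz]; ring
  have h1 : x ^ p - y ^ p = z ^ p + p * (z * (y * ∑ k ∈ Finset.Ioo 0 p, z ^ (k - 1) * y ^ (p - k - 1) *
      ((p.choose k / p : ℕ) : R))) := by
    rw [hx, add_pow_prime_eq hp]
    ring
  rw [h1]
  apply Ideal.add_mem
  · have h2 : z ^ p ∈ (I ^ i) ^ p := Ideal.pow_mem_pow h p
    rw [← pow_mul, mul_comm] at h2
    exact Ideal.pow_le_pow_right (min_le_left _ _) h2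
  · have h2 : z * (y * ∑ k ∈ Finset.Ioo 0 p, z ^ (k - 1) * y ^ (p - k - 1) *
        ((p.choose k / p : ℕ) : R)) ∈ I ^ i := Ideal.mul_mem_right _ _ h
    have h3 := Ideal.mul_mem_mul hpe h2
    rw [← pow_add, add_comm e i] at h3
    exact Ideal.pow_le_pow_right (min_le_right _ _) h3

/-- high powers of congruent elements -/
lemma pow_sub_mem_succ {R : Type*} [CommRing R] {I : Ideal R} {p : ℕ} (hp : p.Prime) {e : ℕ}
    (hpe : (p : R) ∈ I ^ e) {x y : R} (h : x - y ∈ I) (t : ℕ) (ht : e + 1 ≤ p ^ t) :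
    x ^ p ^ t - y ^ p ^ t ∈ I ^ (e + 1) := by
  have key : ∀ t : ℕ, x ^ p ^ t - y ^ p ^ t ∈ I ^ (min (p ^ t) (e + 1)) := by
    intro t
    induction t with
    | zero =>
      have h1 : min (p ^ 0) (e + 1) = 1 := by simp
      rw [h1]
      simpa using h
    | succ t ih =>
      have h1 := pow_prime_sub hp hpe ih
      rw [← pow_mul, ← pow_mul, ← pow_succ] at h1
      refine Ideal.pow_le_pow_right ?_ h1
      have hpos : 1 ≤ p ^ t := Nat.one_le_pow _ _ hp.pos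
      have h2 : p ^ (t + 1) = p * p ^ t := by rw [pow_succ]; ring
      have h3 := hp.one_lt
      rw [h2]
      rcases le_total (p ^ t) (e + 1) with h4 | h4
      · rw [min_eq_left h4]
        refine le_min (min_le_left _ _) ((min_le_right _ _).trans ?_)
        omega
      · rw [min_eq_right h4]
        refine le_min ((min_le_right _ _).trans ?_) ((min_le_right _ _).trans ?_)
        · exact Nat.le_mul_of_pos_left _ hp.pos
        · omega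
  have h1 := key t
  rwa [min_eq_right ht] at h1

variable {K : Type} [Field K] [NumberField K]

open Classical in
/-- the exponent of an ideal in the factorization of `p` -/
noncomputable def mult (p : ℕ) (𝔓 : Ideal (𝓞 K)) : ℕ :=
  (UniqueFactorizationMonoid.normalizedFactors (Ideal.span {(p : 𝓞 K)})).count 𝔓

lemma mem_pow_mult {p : ℕ} (hp : p ≠ 0) (𝔓 : Ideal (𝓞 K)) : (p : 𝓞 K) ∈ 𝔓 ^ mult p 𝔓 := by
  classical
  set I : Ideal (𝓞 K) := Ideal.span {(p : 𝓞 K)} with hI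
  have hI0 : I ≠ ⊥ := by
    rw [hI, Ne, Ideal.span_singleton_eq_bot]
    exact_mod_cast hp
  have h1 : 𝔓 ^ mult p 𝔓 ∣ I := by
    conv_rhs => rw [← Ideal.prod_normalizedFactors_eq_self hI0]
    have h3 : Multiset.replicate (mult p 𝔓) 𝔓 ≤ UniqueFactorizationMonoid.normalizedFactors I := by
      rw [← Multiset.le_count_iff_replicate_le]
      unfold mult
      exact le_of_eq (by congr!)
    have h4 := Multiset.prod_dvd_prod_of_le h3
    rwa [Multiset.prod_replicate] at h4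
  exact Ideal.dvd_iff_le.mp h1 (Ideal.mem_span_singleton_self _)

/-- the primes above `p` on which a function has a certain value contain together a proportion of at
least `1 / M` of the norm of `p`, if there are at most `M` values -/
lemma exists_class' {p : ℕ} (hp : p.Prime) {Y : Type*} (f : Ideal (𝓞 K) → Y) (V : Finset Y) {M : ℕ}
    (hM : V.card ≤ M) (hf : ∀ 𝔓 : Ideal (𝓞 K), 𝔓.IsPrime → (p : 𝓞 K) ∈ 𝔓 → f 𝔓 ∈ V) :
    ∃ (y : Y) (Φ : Finset (Ideal (𝓞 K))), Φ.Nonempty ∧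
      (∀ 𝔓 ∈ Φ, 𝔓.IsPrime ∧ (p : 𝓞 K) ∈ 𝔓 ∧ 𝔓 ≠ ⊥ ∧ f 𝔓 = y) ∧
      (finrank ℚ K : ℝ) * Real.log p ≤
        M * ∑ 𝔓 ∈ Φ, (mult p 𝔓 : ℝ) * Real.log (Ideal.absNorm 𝔓) := by
  classical
  set I : Ideal (𝓞 K) := Ideal.span {(p : 𝓞 K)} with hI
  have hI0 : I ≠ ⊥ := by
    rw [hI, Ne, Ideal.span_singleton_eq_bot]
    exact_mod_cast hp.ne_zero
  set F := (UniqueFactorizationMonoid.normalizedFactors I) with hF
  have hFprime : ∀ 𝔓 ∈ F, 𝔓.IsPrime ∧ (p : 𝓞 K) ∈ 𝔓 ∧ 𝔓 ≠ ⊥ := by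
    intro 𝔓 h
    have h1 := UniqueFactorizationMonoid.prime_of_normalized_factor 𝔓 h
    have h2 := UniqueFactorizationMonoid.dvd_of_mem_normalizedFactors h
    refine ⟨Ideal.isPrime_of_prime h1, ?_, h1.ne_zero⟩
    have h3 : I ≤ 𝔓 := Ideal.dvd_iff_le.mp h2
    exact h3 (Ideal.mem_span_singleton_self _)
  have hprod : F.prod = I := by
    rw [hF]
    exact Ideal.prod_normalizedFactors_eq_self hI0
  have hmult : ∀ 𝔓, mult p 𝔓 = F.count 𝔓 := by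
    intro 𝔓
    unfold mult
    congr!
  set T : Finset (Ideal (𝓞 K)) := F.toFinset with hT
  have hnorm : ∑ 𝔓 ∈ T, (mult p 𝔓 : ℝ) * Real.log (Ideal.absNorm 𝔓) = finrank ℚ K * Real.log p := by
    have h1 : ((Ideal.absNorm I : ℕ) : ℝ) = (p : ℝ) ^ finrank ℚ K := by
      rw [hI, Ideal.absNorm_span_natCast, RingOfIntegers.rank]
      push_cast
      rfl
    have h2 : Real.log (Ideal.absNorm I) = finrank ℚ K * Real.log p := by
      rw [h1, Real.log_pow]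
    rw [← h2, ← hprod]
    have h3 : ∀ s : Multiset (Ideal (𝓞 K)), (∀ 𝔓 ∈ s, 𝔓 ≠ ⊥) →
        (s.map (fun 𝔓 => Real.log (Ideal.absNorm 𝔓))).sum = Real.log (Ideal.absNorm s.prod) := by
      intro s
      induction s using Multiset.induction_on with
      | empty => intro _; simp
      | cons a s ih =>
        intro h
        rw [Multiset.map_cons, Multiset.sum_cons, Multiset.prod_cons, map_mul,
          ih fun 𝔓 h𝔓 => h 𝔓 (Multiset.mem_cons_of_mem h𝔓)]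
        push_cast
        rw [Real.log_mul]
        · have := h a (Multiset.mem_cons_self a s)
          exact_mod_cast (Ideal.absNorm_eq_zero_iff.not.mpr this)
        · have : s.prod ≠ 0 := by
            rw [Ne, Multiset.prod_eq_zero_iff]
            intro h0
            exact h 0 (Multiset.mem_cons_of_mem h0) rfl
          exact_mod_cast (Ideal.absNorm_eq_zero_iff.not.mpr this)
    rw [← h3 F fun 𝔓 h => (hFprime 𝔓 h).2.2, Finset.sum_multiset_map_count]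
    refine Finset.sum_congr rfl fun 𝔓 _ => ?_
    rw [hmult, nsmul_eq_mul]
  have hmemT : ∀ 𝔓 ∈ T, 𝔓.IsPrime ∧ (p : 𝓞 K) ∈ 𝔓 ∧ 𝔓 ≠ ⊥ := fun 𝔓 h =>
    hFprime 𝔓 (Multiset.mem_toFinset.mp h)
  have hmaps : ∀ 𝔓 ∈ T, f 𝔓 ∈ V := fun 𝔓 h => hf 𝔓 (hmemT 𝔓 h).1 (hmemT 𝔓 h).2.1
  have hsum2 : ∑ y ∈ V, ∑ 𝔓 ∈ T.filter (fun 𝔓 => f 𝔓 = y), (mult p 𝔓 : ℝ) * Real.log (Ideal.absNorm 𝔓) =
      finrank ℚ K * Real.log p := by
    rw [Finset.sum_fiberwise_of_maps_to hmaps, hnorm]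
  have hN0 : 0 < (finrank ℚ K : ℝ) * Real.log p := by
    apply mul_pos
    · exact_mod_cast (finrank_pos : 0 < finrank ℚ K)
    · exact Real.log_pos (by exact_mod_cast hp.one_lt)
  have hVne : V.Nonempty := by
    by_contra h
    rw [Finset.not_nonempty_iff_eq_empty] at h
    rw [h, Finset.sum_empty] at hsum2
    linarith
  obtain ⟨y, hyV, hy⟩ := Finset.exists_le_of_sum_le hVne
    (f := fun _ => (finrank ℚ K : ℝ) * Real.log p / V.card)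
    (g := fun y => ∑ 𝔓 ∈ T.filter (fun 𝔓 => f 𝔓 = y), (mult p 𝔓 : ℝ) * Real.log (Ideal.absNorm 𝔓)) (by
      rw [hsum2, Finset.sum_const, nsmul_eq_mul]
      apply le_of_eq
      have : (V.card : ℝ) ≠ 0 := by exact_mod_cast hVne.card_pos.ne'
      field_simp)
  have hVpos : (0:ℝ) < V.card := by exact_mod_cast hVne.card_pos
  have hsum0 : 0 ≤ ∑ 𝔓 ∈ T.filter (fun 𝔓 => f 𝔓 = y), (mult p 𝔓 : ℝ) * Real.log (Ideal.absNorm 𝔓) :=
    Finset.sum_nonneg fun 𝔓 _ => mul_nonneg (Nat.cast_nonneg _) (Real.log_natCast_nonneg _)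
  have hfinal : (finrank ℚ K : ℝ) * Real.log p ≤
      M * ∑ 𝔓 ∈ T.filter (fun 𝔓 => f 𝔓 = y), (mult p 𝔓 : ℝ) * Real.log (Ideal.absNorm 𝔓) := by
    have h1 : (finrank ℚ K : ℝ) * Real.log p / V.card ≤
      ∑ 𝔓 ∈ T.filter (fun 𝔓 => f 𝔓 = y), (mult p 𝔓 : ℝ) * Real.log (Ideal.absNorm 𝔓) := hy
    rw [div_le_iff₀ hVpos] at h1
    have h2 : (V.card : ℝ) ≤ M := by exact_mod_cast hM
    have h3 := mul_le_mul_of_nonneg_right h2 hsum0
    linarith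
  have hne : (T.filter (fun 𝔓 => f 𝔓 = y)).Nonempty := by
    by_contra h
    rw [Finset.not_nonempty_iff_eq_empty] at h
    rw [h, Finset.sum_empty, mul_zero] at hfinal
    linarith
  refine ⟨y, T.filter (fun 𝔓 => f 𝔓 = y), hne, ?_, hfinal⟩
  intro 𝔓 h
  obtain ⟨h1, h2⟩ := Finset.mem_filter.mp h
  exact ⟨(hmemT 𝔓 h1).1, (hmemT 𝔓 h1).2.1, (hmemT 𝔓 h1).2.2, h2⟩

/-- an element of the ring of integers which is in powers of many primes has a large norm -/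
lemma log_norm_ge' {Φ : Finset (Ideal (𝓞 K))} (hbot : ∀ 𝔓 ∈ Φ, 𝔓 ≠ ⊥) (hpr : ∀ 𝔓 ∈ Φ, 𝔓.IsPrime)
    (c : Ideal (𝓞 K) → ℕ) {x : 𝓞 K} (hx0 : x ≠ 0) (hxm : ∀ 𝔓 ∈ Φ, x ∈ 𝔓 ^ c 𝔓) :
    ∑ 𝔓 ∈ Φ, (c 𝔓 : ℝ) * Real.log (Ideal.absNorm 𝔓) ≤
      ∑ φ : K →ₐ[ℚ] ℂ, Real.log ‖φ (algebraMap (𝓞 K) K x)‖ := by
  have hdvd : ∏ 𝔓 ∈ Φ, 𝔓 ^ c 𝔓 ∣ Ideal.span {x} := by
    apply Finset.prod_dvd_of_coprime
    · intro 𝔓 h𝔓 𝔔 h𝔔 hne
      have h1 : 𝔓.IsMaximal := (hpr 𝔓 h𝔓).isMaximal (hbot 𝔓 h𝔓)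
      have h2 : 𝔔.IsMaximal := (hpr 𝔔 h𝔔).isMaximal (hbot 𝔔 h𝔔)
      have h3 : IsCoprime 𝔓 𝔔 := Ideal.isCoprime_iff_sup_eq.mpr (h1.coprime_of_ne h2 hne)
      exact h3.pow
    · intro 𝔓 h𝔓
      rw [Ideal.dvd_span_singleton]
      exact hxm 𝔓 h𝔓
  have hdvd2 : ∏ 𝔓 ∈ Φ, Ideal.absNorm 𝔓 ^ c 𝔓 ∣ (Algebra.norm ℤ x).natAbs := by
    rw [← Ideal.absNorm_span_singleton]
    have h1 : ∏ 𝔓 ∈ Φ, Ideal.absNorm 𝔓 ^ c 𝔓 = Ideal.absNorm (∏ 𝔓 ∈ Φ, 𝔓 ^ c 𝔓) := by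
      rw [map_prod]
      exact Finset.prod_congr rfl fun 𝔓 _ => (map_pow _ _ _).symm
    rw [h1]
    exact map_dvd Ideal.absNorm hdvd
  have hnx0 : (Algebra.norm ℤ x).natAbs ≠ 0 := by
    rw [Int.natAbs_ne_zero]
    exact Algebra.norm_ne_zero_iff.mpr hx0
  have hle : ∏ 𝔓 ∈ Φ, Ideal.absNorm 𝔓 ^ c 𝔓 ≤ (Algebra.norm ℤ x).natAbs :=
    Nat.le_of_dvd (Nat.pos_of_ne_zero hnx0) hdvd2
  have hpos : ∀ 𝔓 ∈ Φ, (0:ℝ) < (Ideal.absNorm 𝔓 : ℝ) ^ c 𝔓 := by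
    intro 𝔓 h𝔓
    have := Ideal.absNorm_eq_zero_iff.not.mpr (hbot 𝔓 h𝔓)
    have h2 : (0:ℝ) < (Ideal.absNorm 𝔓 : ℝ) := by exact_mod_cast Nat.pos_of_ne_zero this
    positivity
  have hlogle : ∑ 𝔓 ∈ Φ, (c 𝔓 : ℝ) * Real.log (Ideal.absNorm 𝔓) ≤
      Real.log ((Algebra.norm ℤ x).natAbs : ℝ) := by
    have h1 : ∑ 𝔓 ∈ Φ, (c 𝔓 : ℝ) * Real.log (Ideal.absNorm 𝔓) =
        Real.log (∏ 𝔓 ∈ Φ, (Ideal.absNorm 𝔓 : ℝ) ^ c 𝔓) := by
      rw [Real.log_prod fun 𝔓 h𝔓 => (hpos 𝔓 h𝔓).ne']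
      exact Finset.sum_congr rfl fun 𝔓 _ => (Real.log_pow _ _).symm
    rw [h1]
    apply Real.log_le_log (Finset.prod_pos hpos)
    exact_mod_cast hle
  have hsumlog : ∑ φ : K →ₐ[ℚ] ℂ, Real.log ‖φ (algebraMap (𝓞 K) K x)‖ =
      Real.log ((Algebra.norm ℤ x).natAbs : ℝ) := by
    have hxK : algebraMap (𝓞 K) K x ≠ 0 := by
      intro h0
      exact hx0 (RingOfIntegers.coe_injective (by rw [h0, map_zero]))
    rw [← Real.log_prod fun φ _ => norm_ne_zero_iff.mpr ((map_ne_zero φ).mpr hxK)]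
    congr 1
    rw [← norm_prod, ← Algebra.norm_eq_prod_embeddings ℚ ℂ (algebraMap (𝓞 K) K x),
      ← Algebra.coe_norm_int]
    rw [eq_ratCast, Rat.cast_intCast, Complex.norm_intCast, Nat.cast_natAbs, Int.cast_abs]
  rw [hsumlog]
  exact hlogle

/-- a unit of finite order which is congruent to one modulo `𝔓 ^ (e + 1)`, `e` the ramification
index, is one -/
lemma torsion_one' {p : ℕ} (hp : p.Prime) {𝔓 : Ideal (𝓞 K)} (hpr : 𝔓.IsPrime) (hpm : (p : 𝓞 K) ∈ 𝔓)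
    {e0 : ℕ} (he0 : ∀ e, (p : 𝓞 K) ∈ 𝔓 ^ e → e ≤ e0) {s : 𝓞 K}
    (hs1 : ∀ e, (p : 𝓞 K) ∈ 𝔓 ^ e → s - 1 ∈ 𝔓 ^ (e + 1)) {n : ℕ} (hn : 0 < n)
    (hsn : s ^ n = 1) : s = 1 := by
  obtain ⟨e, he1, he2⟩ : ∃ e, (p : 𝓞 K) ∈ 𝔓 ^ e ∧ (p : 𝓞 K) ∉ 𝔓 ^ (e + 1) := by
    by_contra hcon
    push Not at hcon
    have h1 : ∀ e, (p : 𝓞 K) ∈ 𝔓 ^ e := by
      intro e
      induction e with
      | zero => simp
      | succ e ih => exact hcon e ih
    have := he0 _ (h1 (e0 + 1))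
    omega
  have hsJ := hs1 e he1
  by_contra hs0
  set m := orderOf s with hm
  have hfo : IsOfFinOrder s := isOfFinOrder_iff_pow_eq_one.mpr ⟨n, hn, hsn⟩
  have hm0 : 0 < m := hfo.orderOf_pos
  have hm1 : m ≠ 1 := by
    intro h
    exact hs0 (orderOf_eq_one_iff.mp h)
  obtain ⟨q, hq, hqm⟩ := Nat.exists_prime_and_dvd hm1
  set ζ : 𝓞 K := s ^ (m / q) with hζ
  have hζq : ζ ^ q = 1 := by
    rw [hζ, ← pow_mul, Nat.div_mul_cancel hqm]
    exact pow_orderOf_eq_one _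
  have hζ1 : ζ ≠ 1 := by
    intro h
    have h1 : m ∣ m / q := orderOf_dvd_of_pow_eq_one h
    have h2 : 0 < m / q := Nat.div_pos (Nat.le_of_dvd hm0 hqm) hq.pos
    have h3 := Nat.le_of_dvd h2 h1
    have h4 : m / q < m := Nat.div_lt_self hm0 hq.one_lt
    omega
  have hcong : ∀ j : ℕ, ∀ y : 𝓞 K, y - 1 ∈ 𝔓 ^ (e + 1) → y ^ j - 1 ∈ 𝔓 ^ (e + 1) := by
    intro j y hy
    obtain ⟨w, hw⟩ : y - 1 ∣ y ^ j - 1 := by simpa using sub_dvd_pow_sub_pow y 1 j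
    rw [hw]
    exact Ideal.mul_mem_right _ _ hy
  have hζc : ζ - 1 ∈ 𝔓 ^ (e + 1) := hcong _ _ hsJ
  have hgeom : ∑ j ∈ Finset.range q, ζ ^ j = 0 := by
    have h1 := mul_geom_sum ζ q
    rw [hζq, sub_self] at h1
    exact (mul_eq_zero.mp h1).resolve_left (sub_ne_zero.mpr hζ1)
  have hq2 : (q : 𝓞 K) ∈ 𝔓 ^ (e + 1) := by
    have h1 : ∑ j ∈ Finset.range q, (ζ ^ j - 1) ∈ 𝔓 ^ (e + 1) :=
      Ideal.sum_mem _ fun j _ => hcong j ζ hζc
    rw [Finset.sum_sub_distrib, hgeom, Finset.sum_const, Finset.card_range, nsmul_eq_mul, mul_one,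
      zero_sub] at h1
    exact neg_mem_iff.mp h1
  have hqp : q = p := by
    by_contra hqp
    have hcop : Nat.Coprime q p := (Nat.coprime_primes hq hp).mpr hqp
    have h1 : IsCoprime (q : ℤ) (p : ℤ) := Nat.isCoprime_iff_coprime.mpr hcop
    obtain ⟨a', b, hab⟩ := h1
    have h2 : (q : 𝓞 K) ∈ 𝔓 := Ideal.pow_le_self (by omega) hq2
    have h3 : (1 : 𝓞 K) ∈ 𝔓 := by
      have h4 : (1 : 𝓞 K) = (a' : 𝓞 K) * q + (b : 𝓞 K) * p := by
        have := congrArg (fun z : ℤ => (z : 𝓞 K)) hab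
        push_cast at this
        exact this.symm
      rw [h4]
      exact Ideal.add_mem _ (Ideal.mul_mem_left _ _ h2) (Ideal.mul_mem_left _ _ hpm)
    exact hpr.ne_top ((Ideal.eq_top_iff_one _).mpr h3)
  rw [hqp] at hq2
  exact he2 hq2

end Pool.Agent.Run7.h816.MG
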