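import Mathlib
import Pool.Agent.Run7.h22.Rel3
import Pool.Agent.Run7.h816.MG.Ram1

/-!
# Units of a Galois number field with bounded ramification above `p`, with few Frobenius automorphisms
-/

set_option autoImplicit false

open Finset Module NumberField

namespace Pool.Agent.Run7.h816.MG

open Pool.Agent.H388SL Pool.Agent.Run7.h22

variable {K : Type} [Field K] [NumberField K]

/-- the units which are congruent to one modulo `𝔓 ^ (e + 1)`, `e` the ramification index, for the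
primes with Frobenius `σ` -/
def CongR (p q : ℕ) (σ : K ≃ₐ[ℚ] K) (x : K) : Prop :=
  ∃ s : (𝓞 K)ˣ, algebraMap (𝓞 K) K (s : 𝓞 K) = x ∧ ∀ 𝔓 : Ideal (𝓞 K), IsFrob p q σ 𝔓 →
    ∀ e : ℕ, (p : 𝓞 K) ∈ 𝔓 ^ e → (s : 𝓞 K) - 1 ∈ 𝔓 ^ (e + 1)

lemma mem_comap_pow {p : ℕ} (g : K ≃ₐ[ℚ] K) {𝔓 : Ideal (𝓞 K)} {e : ℕ} (h : (p : 𝓞 K) ∈ 𝔓 ^ e) :
    (p : 𝓞 K) ∈ (𝔓.comap (MulSemiringAction.toRingHom (K ≃ₐ[ℚ] K) (𝓞 K) g)) ^ e := by
  set φ := MulSemiringAction.toRingHom (K ≃ₐ[ℚ] K) (𝓞 K) g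
  set ψ := MulSemiringAction.toRingHom (K ≃ₐ[ℚ] K) (𝓞 K) g⁻¹
  have h1 : 𝔓.map ψ ≤ 𝔓.comap φ := by
    rw [Ideal.map_le_iff_le_comap]
    intro x hx
    show φ (ψ x) ∈ 𝔓
    have h0 : φ (ψ x) = x := smul_inv_smul g x
    rwa [h0]
  have h2 : ψ (p : 𝓞 K) ∈ (𝔓 ^ e).map ψ := Ideal.mem_map_of_mem ψ h
  rw [map_natCast, Ideal.map_pow] at h2
  exact Ideal.pow_right_mono h1 e h2

lemma goodR {p q : ℕ} (hp : p.Prime) {σ : K ≃ₐ[ℚ] K} {S : Set (K ≃ₐ[ℚ] K)} {k0 : ℕ}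
    (hS : ∀ g : K ≃ₐ[ℚ] K, g * σ * g⁻¹ ∈ S) (hSk : S.ncard ≤ k0)
    {Φ : Finset (Ideal (𝓞 K))} (hΦ : Φ.Nonempty) (hF : ∀ 𝔓 ∈ Φ, IsFrob p q σ 𝔓)
    {e0 : ℕ} (he0 : ∀ 𝔓 : Ideal (𝓞 K), 𝔓.IsPrime → (p : 𝓞 K) ∈ 𝔓 → ∀ e, (p : 𝓞 K) ∈ 𝔓 ^ e → e ≤ e0)
    (hN : (finrank ℚ K : ℝ) * Real.log p ≤
        k0 * ∑ 𝔓 ∈ Φ, (mult p 𝔓 : ℝ) * Real.log (Ideal.absNorm 𝔓)) :
    GoodUnits K k0 (Subgroup.centralizer {σ}) (CongR p q σ) where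
  index := (index_le_of_conj hS).trans hSk
  one := ⟨1, by simp, fun 𝔓 _ e _ => by simp⟩
  mul := by
    rintro _ _ ⟨s, rfl, hs⟩ ⟨t, rfl, ht⟩
    refine ⟨s * t, by simp, fun 𝔓 h𝔓 e he => ?_⟩
    have h1 : ((s * t : (𝓞 K)ˣ) : 𝓞 K) - 1 = ((s : 𝓞 K) - 1) * t + ((t : 𝓞 K) - 1) := by
      push_cast
      ring
    rw [h1]
    exact Ideal.add_mem _ (Ideal.mul_mem_right _ _ (hs 𝔓 h𝔓 e he)) (ht 𝔓 h𝔓 e he)
  inv := by
    rintro _ ⟨s, rfl, hs⟩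
    refine ⟨s⁻¹, ?_, fun 𝔓 h𝔓 e he => ?_⟩
    · have h1 : algebraMap (𝓞 K) K (s : 𝓞 K) * algebraMap (𝓞 K) K ((s⁻¹ : (𝓞 K)ˣ) : 𝓞 K) = 1 := by
        rw [← map_mul, ← Units.val_mul, mul_inv_cancel]
        simp
      exact eq_inv_of_mul_eq_one_right h1
    · have h1 : ((s⁻¹ : (𝓞 K)ˣ) : 𝓞 K) - 1 = (-((s⁻¹ : (𝓞 K)ˣ) : 𝓞 K)) * ((s : 𝓞 K) - 1) := by
        have h2 : ((s⁻¹ : (𝓞 K)ˣ) : 𝓞 K) * (s : 𝓞 K) = 1 := by
          rw [← Units.val_mul, inv_mul_cancel, Units.val_one]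
        linear_combination h2
      rw [h1]
      exact Ideal.mul_mem_left _ _ (hs 𝔓 h𝔓 e he)
  ne_zero := by
    rintro _ ⟨s, rfl, _⟩ h0
    have h1 : (s : 𝓞 K) = 0 := by
      apply RingOfIntegers.coe_injective
      rw [h0, map_zero]
    exact s.ne_zero h1
  int := by
    rintro _ ⟨s, rfl, _⟩
    exact RingOfIntegers.isIntegral_coe _
  aut := by
    rintro g hg _ ⟨s, rfl, hs⟩
    set φ := MulSemiringAction.toRingHom (K ≃ₐ[ℚ] K) (𝓞 K) g with hφ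
    refine ⟨Units.map (φ : 𝓞 K →* 𝓞 K) s, ?_, fun 𝔓 h𝔓 e he => ?_⟩
    · exact smul_coe g s
    · have h1 := h𝔓.comap g
      have h2 : g⁻¹ * σ * g = σ := by
        have h3 := Subgroup.mem_centralizer_singleton_iff.mp hg
        rw [mul_assoc, ← h3, inv_mul_cancel_left]
      rw [h2] at h1
      have h4 := hs _ h1 e (mem_comap_pow g he)
      have h5 : ((Units.map (φ : 𝓞 K →* 𝓞 K) s : (𝓞 K)ˣ) : 𝓞 K) - 1 = φ ((s : 𝓞 K) - 1) := by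
        rw [map_sub, map_one]
        rfl
      rw [h5, ← Ideal.mem_comap]
      exact Ideal.le_comap_pow φ (e + 1) h4
  torsion := by
    rintro _ ⟨s, rfl, hs⟩ n hn hn1
    obtain ⟨𝔓, h𝔓Φ⟩ := hΦ
    have hσ' := hF 𝔓 h𝔓Φ
    have hsn : (s : 𝓞 K) ^ n = 1 := by
      apply RingOfIntegers.coe_injective
      rw [map_pow, hn1, map_one]
    have h1 := torsion_one' hp hσ'.1 hσ'.2.1 (he0 𝔓 hσ'.1 hσ'.2.1) (hs 𝔓 hσ') hn hsn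
    rw [h1, map_one]
  energy := by
    intro ι _ u hu hQ τ hτ hX
    have hSne : S.Nonempty := ⟨_, hS 1⟩
    have hk1 : (1:ℝ) ≤ (k0 : ℝ) := by
      have h1 := (Set.ncard_pos (Set.toFinite _)).mpr hSne
      have h2 : 1 ≤ k0 := h1.trans_le hSk
      exact_mod_cast h2
    apply energy_bound_norm u hu hk1 _ hτ hX
    intro i j hij
    obtain ⟨s, hs, hs2⟩ := hQ i
    obtain ⟨t, ht, ht2⟩ := hQ j
    set x : 𝓞 K := (s : 𝓞 K) - t with hx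
    have hx0 : x ≠ 0 := by
      intro h0
      apply hij
      apply hu
      rw [← hs, ← ht]
      rw [hx, sub_eq_zero] at h0
      rw [h0]
    have hxu : algebraMap (𝓞 K) K x = u i - u j := by
      rw [hx, map_sub, hs, ht]
    have hxm : ∀ 𝔓 ∈ Φ, x ∈ 𝔓 ^ mult p 𝔓 := by
      intro 𝔓 h𝔓
      have hm := mem_pow_mult hp.ne_zero 𝔓
      have h1 := Ideal.sub_mem _ (hs2 𝔓 (hF 𝔓 h𝔓) _ hm) (ht2 𝔓 (hF 𝔓 h𝔓) _ hm)
      have h2 : (s : 𝓞 K) - 1 - ((t : 𝓞 K) - 1) = x := by rw [hx]; ring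
      rw [h2] at h1
      exact Ideal.pow_le_pow_right (Nat.le_succ _) h1
    have hbot : ∀ 𝔓 ∈ Φ, 𝔓 ≠ ⊥ := by
      rintro 𝔓 h𝔓 rfl
      have h1 := (hF _ h𝔓).2.1
      rw [Ideal.mem_bot] at h1
      exact hp.ne_zero (by exact_mod_cast h1)
    have hpr : ∀ 𝔓 ∈ Φ, 𝔓.IsPrime := fun 𝔓 h𝔓 => (hF 𝔓 h𝔓).1
    have hlogle := log_norm_ge' hbot hpr (mult p) hx0 hxm
    have hsumlog : ∑ φ : K →ₐ[ℚ] ℂ, Real.log ‖φ (u i) - φ (u j)‖ =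
        ∑ φ : K →ₐ[ℚ] ℂ, Real.log ‖φ (algebraMap (𝓞 K) K x)‖ := by
      refine Finset.sum_congr rfl fun φ _ => ?_
      rw [hxu, map_sub]
    rw [hsumlog]
    have hlp : Real.log 2 ≤ Real.log p := by
      apply Real.log_le_log (by norm_num)
      exact_mod_cast hp.two_le
    calc (finrank ℚ K : ℝ) * Real.log 2 ≤ finrank ℚ K * Real.log p := by gcongr
      _ ≤ _ := hN
      _ ≤ _ := by gcongr

/-- a power of `p` of the right size -/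
lemma exists_pow_size {p : ℕ} (hp : p.Prime) {m : ℕ} (hm : 1 ≤ m) :
    ∃ t : ℕ, m + 1 ≤ p ^ t ∧ p ^ t ≤ p * (2 * m) := by
  refine ⟨Nat.clog p (m + 1), Nat.le_pow_clog hp.one_lt _, ?_⟩
  have h1 : 0 < Nat.clog p (m + 1) := Nat.clog_pos hp.one_lt (by omega)
  have h2 : p ^ (Nat.clog p (m + 1) - 1) < m + 1 := Nat.pow_pred_clog_lt_self hp.one_lt (by omega)
  calc p ^ Nat.clog p (m + 1) = p * p ^ (Nat.clog p (m + 1) - 1) := by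
        rw [← pow_succ', Nat.sub_add_cancel h1]
    _ ≤ p * (2 * m) := Nat.mul_le_mul_left _ (by omega)

/-- **The height of a unit which is not a root of unity, in a Galois number field with bounded
ramification above `p`, in terms of the number of sufficiently many Frobenius automorphisms.** -/
theorem field_main_R : ∃ C : ℝ, 0 < C ∧ ∀ (K : Type) [Field K] [NumberField K] [IsGalois ℚ K] (p a : ℕ),
    p.Prime → 1 ≤ a → ∀ e0 : ℕ,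
    (∀ 𝔓 : Ideal (𝓞 K), 𝔓.IsPrime → (p : 𝓞 K) ∈ 𝔓 → ∀ e, (p : 𝓞 K) ∈ 𝔓 ^ e → e ≤ e0) →
    ∀ S : Set (K ≃ₐ[ℚ] K), (∀ σ ∈ S, ∀ g : K ≃ₐ[ℚ] K, g * σ * g⁻¹ ∈ S) →
    (∀ 𝔓 : Ideal (𝓞 K), 𝔓.IsPrime → (p : 𝓞 K) ∈ 𝔓 → ∃ σ ∈ S, IsFrob p (p ^ a) σ 𝔓) →
    ∀ k0 : ℕ, S.ncard ≤ k0 → ∀ α : K, IsU α → (∀ n : ℕ, 0 < n → α ^ n ≠ 1) →
    (finrank ℚ K : ℝ) ≤ C * (p : ℝ) ^ (a + 1) * e0 *
      (k0 * Real.exp (9 * Real.sqrt (Real.log (2 * k0)))) * lam α := by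
  classical
  obtain ⟨C, hC, hmain⟩ := abs_main
  refine ⟨4 * C, by positivity, ?_⟩
  intro K _ _ _ p a hp ha1 e0 he0 S hSc hSF k0 hSk α hα hroot
  have h0 := hα.1
  have hlam : 0 < lam α := lam_pos hα.2.1 h0 hroot
  -- the Frobenius automorphism
  have hex : ∀ 𝔓 : Ideal (𝓞 K), ∃ σ : K ≃ₐ[ℚ] K, 𝔓.IsPrime → (p : 𝓞 K) ∈ 𝔓 →
      σ ∈ S ∧ IsFrob p (p ^ a) σ 𝔓 := by
    intro 𝔓
    by_cases h : 𝔓.IsPrime ∧ (p : 𝓞 K) ∈ 𝔓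
    · obtain ⟨σ, hσ1, hσ2⟩ := hSF 𝔓 h.1 h.2
      exact ⟨σ, fun _ _ => ⟨hσ1, hσ2⟩⟩
    · exact ⟨1, fun h1 h2 => absurd ⟨h1, h2⟩ h⟩
  choose f hf using hex
  set V : Finset (K ≃ₐ[ℚ] K) := (Set.toFinite S).toFinset with hV
  have hVk : V.card ≤ k0 := by
    rwa [hV, ← Set.ncard_eq_toFinset_card S (Set.toFinite S)]
  obtain ⟨σ, Φ, hΦ, hF, hN⟩ := exists_class' hp f V hVk (fun 𝔓 h1 h2 => by
    rw [hV, Set.Finite.mem_toFinset]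
    exact (hf 𝔓 h1 h2).1)
  have hF' : ∀ 𝔓 ∈ Φ, IsFrob p (p ^ a) σ 𝔓 := by
    intro 𝔓 h𝔓
    obtain ⟨h1, h2, -, h3⟩ := hF 𝔓 h𝔓
    rw [← h3]
    exact (hf 𝔓 h1 h2).2
  obtain ⟨𝔓₀, h𝔓₀⟩ := hΦ
  have hσS : σ ∈ S := by
    obtain ⟨h1, h2, -, h3⟩ := hF 𝔓₀ h𝔓₀
    rw [← h3]
    exact (hf 𝔓₀ h1 h2).1
  have he01 : 1 ≤ e0 := by
    obtain ⟨h1, h2, -, h3⟩ := hF 𝔓₀ h𝔓₀
    exact he0 𝔓₀ h1 h2 1 (by rwa [pow_one])
  have hgood := goodR (q := p ^ a) hp (hSc σ hσS) hSk ⟨𝔓₀, h𝔓₀⟩ hF' he0 hN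
  obtain ⟨t, ht1, ht2⟩ := exists_pow_size hp he01
  -- the unit
  set b : 𝓞 K := ⟨α, hα.2.1⟩ with hb
  set b' : 𝓞 K := ⟨α⁻¹, hα.2.2⟩ with hb'
  have hbα : algebraMap (𝓞 K) K b = α := rfl
  have hbα' : algebraMap (𝓞 K) K b' = α⁻¹ := rfl
  have hbb : b * b' = 1 := by
    apply RingOfIntegers.coe_injective
    rw [map_mul, hbα, hbα', mul_inv_cancel₀ h0, map_one]
  set v : (𝓞 K)ˣ := ⟨b, b', hbb, by rw [mul_comm]; exact hbb⟩ with hv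
  have haα : algebraMap (𝓞 K) K (v : 𝓞 K) = α := rfl
  set φ := MulSemiringAction.toRingHom (K ≃ₐ[ℚ] K) (𝓞 K) σ with hφ
  set c : (𝓞 K)ˣ := Units.map (φ : 𝓞 K →* 𝓞 K) v with hc
  have hcσ : algebraMap (𝓞 K) K (c : 𝓞 K) = σ α := smul_coe σ b
  have hσ0 : σ α ≠ 0 := (map_ne_zero σ).mpr h0
  set γ : K := α ^ (p ^ a * p ^ t) * ((σ α)⁻¹) ^ p ^ t with hγ
  have hQ : CongR p (p ^ a) σ γ := by
    refine ⟨v ^ (p ^ a * p ^ t) * (c⁻¹) ^ p ^ t, ?_, fun 𝔓 h𝔓 e he => ?_⟩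
    · rw [Units.val_mul, map_mul, Units.val_pow_eq_pow_val, Units.val_pow_eq_pow_val, map_pow, map_pow,
        haα]
      have h1 : algebraMap (𝓞 K) K ((c⁻¹ : (𝓞 K)ˣ) : 𝓞 K) = (σ α)⁻¹ := by
        apply eq_inv_of_mul_eq_one_right
        rw [← hcσ, ← map_mul, ← Units.val_mul, mul_inv_cancel]
        simp
      rw [h1]
    · have h1 : (v : 𝓞 K) ^ (p ^ a) - c ∈ 𝔓 := by
        have h2 := h𝔓.2.2 (v : 𝓞 K)
        have h3 : (c : 𝓞 K) = σ • (v : 𝓞 K) := rfl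
        rw [h3, ← neg_sub]
        exact neg_mem h2
      have hee : e + 1 ≤ p ^ t := by
        have := he0 𝔓 h𝔓.1 h𝔓.2.1 e he
        omega
      have h2 := pow_sub_mem_succ hp he h1 t hee
      have h3 : ((v ^ (p ^ a * p ^ t) * (c⁻¹) ^ p ^ t : (𝓞 K)ˣ) : 𝓞 K) - 1 =
          (((v : 𝓞 K) ^ (p ^ a)) ^ p ^ t - (c : 𝓞 K) ^ p ^ t) * ((c⁻¹ : (𝓞 K)ˣ) : 𝓞 K) ^ p ^ t := by
        have h4 : (c : 𝓞 K) ^ p ^ t * ((c⁻¹ : (𝓞 K)ˣ) : 𝓞 K) ^ p ^ t = 1 := by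
          rw [← mul_pow, ← Units.val_mul, mul_inv_cancel, Units.val_one, one_pow]
        rw [sub_mul, h4, Units.val_mul, Units.val_pow_eq_pow_val, Units.val_pow_eq_pow_val, pow_mul]
      rw [h3]
      exact Ideal.mul_mem_right _ _ h2
  have hp1 : (1:ℝ) < p := by exact_mod_cast hp.one_lt
  have hpt : (0:ℝ) < (p : ℝ) ^ t := by positivity
  have hγ1 : γ ≠ 1 := by
    intro h
    have h1 : α ^ (p ^ a * p ^ t) = (σ α) ^ p ^ t := by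
      rw [hγ, inv_pow, mul_inv_eq_one₀ (pow_ne_zero _ hσ0)] at h
      exact h
    have h2 := congrArg lam h1
    rw [lam_pow, lam_pow, lam_aut] at h2
    push_cast at h2
    have h3 : (p : ℝ) ^ t * lam α * ((p : ℝ) ^ a - 1) = 0 := by linarith
    have h4 : 0 < (p : ℝ) ^ t * lam α * ((p : ℝ) ^ a - 1) := by
      have : (0:ℝ) < (p : ℝ) ^ a - 1 := by
        have := one_lt_pow₀ hp1 (Nat.one_le_iff_ne_zero.mp ha1)
        linarith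
      positivity
    linarith
  have hlγ : lam γ ≤ 4 * (p : ℝ) ^ (a + 1) * e0 * lam α := by
    rw [hγ]
    refine (lam_mul_le _ _).trans ?_
    have hs1 : IsIntegral ℤ (σ α) := hα.2.1.map (σ : K →ₐ[ℚ] K)
    have hs2 : IsIntegral ℤ (σ α)⁻¹ := by
      rw [← map_inv₀]
      exact hα.2.2.map (σ : K →ₐ[ℚ] K)
    rw [lam_pow, lam_pow, lam_inv hs1 hs2 hσ0, lam_aut]
    push_cast
    have h1 : (1:ℝ) ≤ (p : ℝ) ^ a := one_le_pow₀ hp1.le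
    have h2 : (p : ℝ) ^ t ≤ p * (2 * e0) := by exact_mod_cast ht2
    calc (p : ℝ) ^ a * (p : ℝ) ^ t * lam α + (p : ℝ) ^ t * lam α
        = ((p : ℝ) ^ a + 1) * (p : ℝ) ^ t * lam α := by ring
      _ ≤ (2 * (p : ℝ) ^ a) * (p * (2 * e0)) * lam α := by
          apply mul_le_mul_of_nonneg_right _ hlam.le
          apply mul_le_mul _ h2 hpt.le (by positivity)
          linarith
      _ = 4 * (p : ℝ) ^ (a + 1) * e0 * lam α := by ring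
  have h1 := hmain K k0 (Subgroup.centralizer {σ}) (CongR p (p ^ a) σ) hgood γ hQ hγ1
  refine h1.trans ?_
  have h2 : 0 ≤ C * (k0 * Real.exp (9 * Real.sqrt (Real.log (2 * k0)))) := by positivity
  calc C * (k0 * Real.exp (9 * Real.sqrt (Real.log (2 * k0)))) * lam γ
      ≤ C * (k0 * Real.exp (9 * Real.sqrt (Real.log (2 * k0)))) * (4 * (p : ℝ) ^ (a + 1) * e0 * lam α) :=
        mul_le_mul_of_nonneg_left hlγ h2
    _ = _ := by ring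

end Pool.Agent.Run7.h816.MG
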