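import Mathlib
import Pool.Agent.Run7.h22.Rel4
import Pool.Agent.Run7.h816.MG.Ram2

/-!
# Norms from a field in which `p` is unramified
-/

set_option autoImplicit false

open Finset Module NumberField

namespace Pool.Agent.Run7.h816.MG

open Pool.Agent.H388SL Pool.Agent.Run7.h22

variable {K : Type} [Field K] [NumberField K]

/-- the exact power of a prime ideal which contains `p` -/
lemma exists_exact {E : Type} [Field E] [NumberField E] {p : ℕ} {eE : ℕ} {𝔮 : Ideal (𝓞 E)}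
    (hp2 : (p : 𝓞 E) ∉ 𝔮 ^ (eE + 1)) :
    ∃ (j : ℕ) (𝔟 : Ideal (𝓞 E)), j ≤ eE ∧ Ideal.span {(p : 𝓞 E)} = 𝔮 ^ j * 𝔟 ∧ ¬ 𝔟 ≤ 𝔮 := by
  classical
  have hex : ∃ i, (p : 𝓞 E) ∉ 𝔮 ^ (i + 1) := ⟨eE, hp2⟩
  set j := Nat.find hex with hj
  have h1 : (p : 𝓞 E) ∉ 𝔮 ^ (j + 1) := Nat.find_spec hex
  have h2 : (p : 𝓞 E) ∈ 𝔮 ^ j := by
    rcases Nat.eq_zero_or_pos j with h0 | h0
    · rw [h0, pow_zero, Ideal.one_eq_top]
      exact Submodule.mem_top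
    · have h3 := Nat.find_min hex (m := j - 1) (by omega)
      rw [not_not, Nat.sub_add_cancel h0] at h3
      exact h3
  have hjE : j ≤ eE := Nat.find_min' hex hp2
  obtain ⟨𝔟, h𝔟⟩ : 𝔮 ^ j ∣ Ideal.span {(p : 𝓞 E)} := Ideal.dvd_span_singleton.mpr h2
  refine ⟨j, 𝔟, hjE, h𝔟, fun hcon => h1 ?_⟩
  have h3 : Ideal.span {(p : 𝓞 E)} ≤ 𝔮 ^ (j + 1) := by
    rw [h𝔟, pow_succ]
    exact Ideal.mul_mono_right hcon
  exact h3 (Ideal.mem_span_singleton_self _)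

/-- an integer of `E` which is in a prime of `K` above `p`: a bounded power is in the power of the
prime whose exponent is the ramification index -/
lemma unr_mem {E : Type} [Field E] [NumberField E] [Algebra E K] {p : ℕ} {eE : ℕ}
    (hunE : ∀ 𝔮 : Ideal (𝓞 E), 𝔮.IsPrime → (p : 𝓞 E) ∈ 𝔮 → (p : 𝓞 E) ∉ 𝔮 ^ (eE + 1))
    {𝔓 : Ideal (𝓞 K)} (h1 : 𝔓.IsPrime) (h2 : (p : 𝓞 K) ∈ 𝔓) {y : 𝓞 E}
    (hy : algebraMap (𝓞 E) (𝓞 K) y ∈ 𝔓) {e : ℕ} (he : (p : 𝓞 K) ∈ 𝔓 ^ e) :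
    (algebraMap (𝓞 E) (𝓞 K) y) ^ eE ∈ 𝔓 ^ e := by
  set 𝔮 : Ideal (𝓞 E) := 𝔓.comap (algebraMap (𝓞 E) (𝓞 K)) with h𝔮
  have hq : 𝔮.IsPrime := Ideal.comap_isPrime _ _
  have hpq : (p : 𝓞 E) ∈ 𝔮 := by
    rw [h𝔮, Ideal.mem_comap, map_natCast]
    exact h2
  obtain ⟨j, 𝔟, hjE, h𝔟, hn⟩ := exists_exact (hunE 𝔮 hq hpq)
  obtain ⟨b, hb, hb𝔮⟩ : ∃ b ∈ 𝔟, b ∉ 𝔮 := by
    by_contra hcon
    push Not at hcon
    exact hn hcon
  have hy𝔮 : y ∈ 𝔮 := hy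
  have hyb : y ^ j * b ∈ Ideal.span {(p : 𝓞 E)} := by
    rw [h𝔟]
    exact Ideal.mul_mem_mul (Ideal.pow_mem_pow hy𝔮 j) hb
  obtain ⟨z, hz⟩ := Ideal.mem_span_singleton.mp hyb
  have h3 : algebraMap (𝓞 E) (𝓞 K) b * (algebraMap (𝓞 E) (𝓞 K) y) ^ j ∈ 𝔓 ^ e := by
    rw [← map_pow, ← map_mul, mul_comm b, hz, map_mul, map_natCast]
    exact Ideal.mul_mem_right _ _ he
  rcases Ideal.IsPrime.mul_mem_pow 𝔓 h3 with h4 | h4
  · exact absurd h4 hb𝔮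
  · rw [← Nat.sub_add_cancel hjE, pow_add]
    exact Ideal.mul_mem_left _ _ h4

/-- a nonzero integer with few conjugates over `E` in many primes has a large norm -/
lemma norm_lower {E : Type} [Field E] [NumberField E] [Algebra E K] {p : ℕ} (hp : p.Prime) {eE : ℕ}
    (hunE : ∀ 𝔮 : Ideal (𝓞 E), 𝔮.IsPrime → (p : 𝓞 E) ∈ 𝔮 → (p : 𝓞 E) ∉ 𝔮 ^ (eE + 1))
    (N : Subgroup (K ≃ₐ[ℚ] K)) (hNE : ∀ x : K, (∀ τ ∈ N, τ x = x) → ∃ y : E, algebraMap E K y = x)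
    {Φ : Finset (Ideal (𝓞 K))} (hΦ : ∀ 𝔓 ∈ Φ, 𝔓.IsPrime ∧ (p : 𝓞 K) ∈ 𝔓 ∧ 𝔓 ≠ ⊥)
    {C₁ : ℕ} {x : 𝓞 K} (hx0 : x ≠ 0) (hxm : ∀ 𝔓 ∈ Φ, x ∈ 𝔓)
    (hC : (orbN N (algebraMap (𝓞 K) K x)).ncard ≤ C₁) :
    ∑ 𝔓 ∈ Φ, (mult p 𝔓 : ℝ) * Real.log (Ideal.absNorm 𝔓) ≤
      ((C₁ * eE : ℕ) : ℝ) * ∑ φ : K →ₐ[ℚ] ℂ, Real.log ‖φ (algebraMap (𝓞 K) K x)‖ := by
  classical
  set x' : K := algebraMap (𝓞 K) K x with hx'
  have hx'0 : x' ≠ 0 := by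
    intro h0
    exact hx0 (RingOfIntegers.coe_injective (by rw [← hx', h0, map_zero]))
  set Y : Finset K := (orbN_finite N x').toFinset with hY
  have hYcard : Y.card ≤ C₁ := by
    rwa [hY, ← Set.ncard_eq_toFinset_card _ (orbN_finite N x')]
  have hYmem : ∀ z, z ∈ Y ↔ ∃ τ ∈ N, τ x' = z := by
    intro z
    rw [hY, Set.Finite.mem_toFinset]
    exact Iff.rfl
  have hxY : x' ∈ Y := (hYmem x').mpr ⟨1, N.one_mem, rfl⟩
  have hYint : ∀ z ∈ Y, IsIntegral ℤ z := by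
    intro z hz
    obtain ⟨τ, -, rfl⟩ := (hYmem z).mp hz
    exact (RingOfIntegers.isIntegral_coe x).map (τ : K →ₐ[ℚ] K)
  have hY0 : ∀ z ∈ Y, z ≠ 0 := by
    intro z hz
    obtain ⟨τ, -, rfl⟩ := (hYmem z).mp hz
    exact (map_ne_zero τ).mpr hx'0
  set y : K := ∏ z ∈ Y, z with hy
  -- invariance
  have hfix : ∀ τ ∈ N, τ y = y := by
    intro τ hτ
    rw [hy, map_prod]
    refine Finset.prod_bij (fun z _ => τ z) ?_ ?_ ?_ ?_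
    · intro z hz
      obtain ⟨τ', hτ', rfl⟩ := (hYmem z).mp hz
      exact (hYmem _).mpr ⟨τ * τ', N.mul_mem hτ hτ', rfl⟩
    · intro z _ z' _ h
      exact τ.injective h
    · intro z hz
      obtain ⟨τ', hτ', rfl⟩ := (hYmem z).mp hz
      refine ⟨(τ⁻¹ * τ') x', (hYmem _).mpr ⟨τ⁻¹ * τ', N.mul_mem (N.inv_mem hτ) hτ', rfl⟩, ?_⟩
      rw [← AlgEquiv.mul_apply, mul_inv_cancel_left]
    · intro z _
      rfl
  obtain ⟨w, hw⟩ := hNE y hfix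
  have hyint : IsIntegral ℤ y := by
    rw [hy]
    exact IsIntegral.prod _ hYint
  have hwint : IsIntegral ℤ w := by
    rw [← hw] at hyint
    exact (isIntegral_algebraMap_iff (algebraMap E K).injective).mp hyint
  set w' : 𝓞 E := ⟨w, hwint⟩ with hw'
  set y' : 𝓞 K := algebraMap (𝓞 E) (𝓞 K) w' with hy'
  have hy'y : algebraMap (𝓞 K) K y' = y := by
    rw [← hw]
    rfl
  -- divisibility
  have hrint : IsIntegral ℤ (∏ z ∈ Y.erase x', z) :=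
    IsIntegral.prod _ fun z hz => hYint z (Finset.mem_of_mem_erase hz)
  have hyr : y' = x * ⟨_, hrint⟩ := by
    apply RingOfIntegers.coe_injective
    rw [map_mul, hy'y, hy, ← Finset.mul_prod_erase Y (fun z => z) hxY]
    rfl
  have hmem : ∀ 𝔓 ∈ Φ, y' ^ eE ∈ 𝔓 ^ mult p 𝔓 := by
    intro 𝔓 h𝔓
    have h1 : y' ∈ 𝔓 := by
      rw [hyr]
      exact Ideal.mul_mem_right _ _ (hxm 𝔓 h𝔓)
    exact unr_mem hunE (hΦ 𝔓 h𝔓).1 (hΦ 𝔓 h𝔓).2.1 h1 (mem_pow_mult hp.ne_zero 𝔓)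
  have hy0 : y ≠ 0 := Finset.prod_ne_zero_iff.mpr hY0
  have hy'0 : y' ≠ 0 := by
    intro h0
    apply hy0
    rw [← hy'y, h0, map_zero]
  have h1 := log_norm_ge' (fun 𝔓 h => (hΦ 𝔓 h).2.2) (fun 𝔓 h => (hΦ 𝔓 h).1) (mult p)
    (pow_ne_zero eE hy'0) hmem
  refine h1.trans ?_
  have hpe : ∑ φ : K →ₐ[ℚ] ℂ, Real.log ‖φ (algebraMap (𝓞 K) K (y' ^ eE))‖ =
      eE * ∑ φ : K →ₐ[ℚ] ℂ, Real.log ‖φ (algebraMap (𝓞 K) K y')‖ := by
    rw [Finset.mul_sum]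
    refine Finset.sum_congr rfl fun φ _ => ?_
    rw [map_pow, map_pow, norm_pow, Real.log_pow]
  rw [hpe]
  -- the norm of the product
  have hone : ∀ z ∈ Y, ∑ φ : K →ₐ[ℚ] ℂ, Real.log ‖φ z‖ = ∑ φ : K →ₐ[ℚ] ℂ, Real.log ‖φ x'‖ := by
    intro z hz
    obtain ⟨τ, -, rfl⟩ := (hYmem z).mp hz
    let e : (K →ₐ[ℚ] ℂ) → (K →ₐ[ℚ] ℂ) := fun σ => σ.comp (τ : K →ₐ[ℚ] K)
    have he : Function.Injective e := by
      intro σ τ' h
      apply AlgHom.ext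
      intro y
      have h1 := AlgHom.congr_fun h (τ.symm y)
      have h2 : σ (τ (τ.symm y)) = τ' (τ (τ.symm y)) := h1
      rwa [AlgEquiv.apply_symm_apply] at h2
    have hb : Function.Bijective e := Finite.injective_iff_bijective.mp he
    exact hb.sum_comp (fun σ : K →ₐ[ℚ] ℂ => Real.log ‖σ x'‖)
  have hprod : ∑ φ : K →ₐ[ℚ] ℂ, Real.log ‖φ (algebraMap (𝓞 K) K y')‖ =
      Y.card * ∑ φ : K →ₐ[ℚ] ℂ, Real.log ‖φ x'‖ := by
    rw [hy'y, hy]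
    have h2 : ∀ φ : K →ₐ[ℚ] ℂ, Real.log ‖φ (∏ z ∈ Y, z)‖ = ∑ z ∈ Y, Real.log ‖φ z‖ := by
      intro φ
      rw [map_prod, norm_prod, Real.log_prod fun z hz => norm_ne_zero_iff.mpr ((map_ne_zero φ).mpr (hY0 z hz))]
    rw [Finset.sum_congr rfl fun φ _ => h2 φ, Finset.sum_comm, Finset.sum_congr rfl hone,
      Finset.sum_const, nsmul_eq_mul]
  rw [hprod]
  have hpos : 0 ≤ ∑ φ : K →ₐ[ℚ] ℂ, Real.log ‖φ x'‖ := by
    have h2 := log_norm_ge' (Φ := (∅ : Finset (Ideal (𝓞 K)))) (by simp) (by simp) (mult p) hx0 (by simp)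
    rwa [Finset.sum_empty] at h2
  rw [← mul_assoc]
  apply mul_le_mul_of_nonneg_right _ hpos
  have h3 : (Y.card : ℝ) ≤ C₁ := by exact_mod_cast hYcard
  push_cast
  nlinarith [Nat.cast_nonneg (α := ℝ) eE]

/-- the number of the joint images under `N` -/
lemma orb_tuple (N : Subgroup (K ≃ₐ[ℚ] K)) {ι : Type} [Fintype ι] {D : ℕ} (B : ι → K)
    (hD : ∀ j, (orbN N (B j)).ncard ≤ D) :
    ((fun τ : K ≃ₐ[ℚ] K => fun j => τ (B j)) '' (N : Set (K ≃ₐ[ℚ] K))).ncard ≤ D ^ Fintype.card ι := by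
  classical
  have hsub : ((fun τ : K ≃ₐ[ℚ] K => fun j => τ (B j)) '' (N : Set (K ≃ₐ[ℚ] K))) ⊆
      (Fintype.piFinset (fun j => (orbN_finite N (B j)).toFinset) : Finset (ι → K)) := by
    rintro _ ⟨τ, hτ, rfl⟩
    rw [Finset.mem_coe, Fintype.mem_piFinset]
    intro j
    rw [Set.Finite.mem_toFinset]
    exact ⟨τ, hτ, rfl⟩
  calc _ ≤ ((Fintype.piFinset (fun j => (orbN_finite N (B j)).toFinset) : Finset (ι → K)) :
        Set (ι → K)).ncard := Set.ncard_le_ncard hsub (Finset.finite_toSet _)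
    _ = (Fintype.piFinset (fun j => (orbN_finite N (B j)).toFinset)).card := Set.ncard_coe_finset _
    _ = ∏ j, ((orbN_finite N (B j)).toFinset).card := Fintype.card_piFinset _
    _ ≤ ∏ _j : ι, D := by
        apply Finset.prod_le_prod' fun j _ => ?_
        rw [← Set.ncard_eq_toFinset_card _ (orbN_finite N (B j))]
        exact hD j
    _ = D ^ Fintype.card ι := by rw [Finset.prod_const, Finset.card_univ]

/-- the orbit of an element which is determined by a tuple -/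
lemma orb_le_of_tuple (N : Subgroup (K ≃ₐ[ℚ] K)) {ι : Type} [Fintype ι] {D : ℕ} (B : ι → K)
    (hD : ∀ j, (orbN N (B j)).ncard ≤ D) {x : K}
    (hx : ∀ τ τ' : K ≃ₐ[ℚ] K, (∀ j, τ (B j) = τ' (B j)) → τ x = τ' x) :
    (orbN N x).ncard ≤ D ^ Fintype.card ι := by
  refine le_trans ?_ (orb_tuple N B hD)
  unfold orbN
  apply ncard_image_le_of_factor (Set.toFinite _)
  intro τ _ τ' _ h
  exact hx τ τ' fun j => congrFun h j

end Pool.Agent.Run7.h816.MG
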