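import Mathlib
import Pool.Agent.Run7.h816.MG.Ram3

/-!
# Several multiplicatively independent units with few joint Frobenius images, any ramification
-/

set_option autoImplicit false

open Finset Module NumberField

namespace Pool.Agent.Run7.h816.MG

open Pool.Agent.H388SL Pool.Agent.Run7.h22

variable {K : Type} [Field K] [NumberField K]

/-- **Many multiplicatively independent units whose joint images under the Frobenius automorphisms
are few.** The ramification index of `p` in `E` is at most `eE`, there is no condition on the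
ramification in `K`. -/
theorem high_rank' [IsGalois ℚ K] {E : Type} [Field E] [NumberField E] [Algebra E K] {p a : ℕ}
    (hp : p.Prime) (ha : 1 ≤ a)
    {eE : ℕ} (heE : 1 ≤ eE)
    (hunE : ∀ 𝔮 : Ideal (𝓞 E), 𝔮.IsPrime → (p : 𝓞 E) ∈ 𝔮 → (p : 𝓞 E) ∉ 𝔮 ^ (eE + 1))
    (N : Subgroup (K ≃ₐ[ℚ] K)) [N.Normal]
    (hNE : ∀ x : K, (∀ τ ∈ N, τ x = x) → ∃ y : E, algebraMap E K y = x)
    {r T M₁ D M : ℕ} (B : Fin r → K) (hB : ∀ j, IsU (B j)) {Λ : ℝ} (hΛ : ∀ j, lam (B j) ≤ Λ)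
    (hind : LinearIndependent ℤ fun j => lg (B j))
    (hD : ∀ j, (orbN N (B j)).ncard ≤ D)
    (hM1 : ((fun σ : K ≃ₐ[ℚ] K => fun j => σ (B j)) '' frobSet K p (p ^ a)).ncard ≤ M₁)
    (hM : M = M₁ * (D ^ (2 * r) * eE))
    (hT : 256 * (M : ℝ) ^ 2 ≤ (T : ℝ) ^ r) :
    (finrank ℚ K : ℝ) ≤ 16 * M * (r * T * ((p : ℝ) ^ a + 1) * Λ) := by
  classical
  have hex : ∀ 𝔓 : Ideal (𝓞 K), ∃ σ : K ≃ₐ[ℚ] K, 𝔓.IsPrime → (p : 𝓞 K) ∈ 𝔓 →
      IsFrob p (p ^ a) σ 𝔓 := by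
    intro 𝔓
    by_cases h : 𝔓.IsPrime ∧ (p : 𝓞 K) ∈ 𝔓
    · obtain ⟨σ, hσ⟩ := exists_frob_pow hp a h.1 h.2
      exact ⟨σ, fun _ _ => hσ⟩
    · exact ⟨1, fun h1 h2 => absurd ⟨h1, h2⟩ h⟩
  choose fr hfr using hex
  set V : Finset (Fin r → K) := ((Set.toFinite (frobSet K p (p ^ a))).image
    (fun σ : K ≃ₐ[ℚ] K => fun j => σ (B j))).toFinset with hV
  have hVk : V.card ≤ M₁ := by
    rwa [hV, ← Set.ncard_eq_toFinset_card _ ((Set.toFinite (frobSet K p (p ^ a))).image _)]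
  obtain ⟨y₀, Φ, hΦ, hF₀, hN₀⟩ := exists_class' hp (fun 𝔓 => fun j => fr 𝔓 (B j)) V hVk
    (fun 𝔓 h1 h2 => by
      rw [hV, Set.Finite.mem_toFinset]
      exact ⟨fr 𝔓, ⟨𝔓, hfr 𝔓 h1 h2⟩, rfl⟩)
  obtain ⟨𝔓₀, h𝔓₀⟩ := hΦ
  set σ : K ≃ₐ[ℚ] K := fr 𝔓₀ with hσdef
  have hσ : σ ∈ frobSet K p (p ^ a) := ⟨𝔓₀, hfr 𝔓₀ (hF₀ 𝔓₀ h𝔓₀).1 (hF₀ 𝔓₀ h𝔓₀).2.1⟩
  have hF : ∀ 𝔓 ∈ Φ, ∃ σ', IsFrob p (p ^ a) σ' 𝔓 ∧ (fun j => σ' (B j)) = fun j => σ (B j) := by
    intro 𝔓 h𝔓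
    obtain ⟨h1, h2, -, h3⟩ := hF₀ 𝔓 h𝔓
    obtain ⟨-, -, -, h3'⟩ := hF₀ 𝔓₀ h𝔓₀
    exact ⟨fr 𝔓, hfr 𝔓 h1 h2, h3.trans h3'.symm⟩
  set q : ℕ := p ^ a with hqdef
  have hq2 : 2 ≤ q := by
    calc 2 ≤ p := hp.two_le
      _ = p ^ 1 := (pow_one p).symm
      _ ≤ p ^ a := Nat.pow_le_pow_right hp.pos ha
  have hM1n : 1 ≤ M := by
    have h1 : ((fun σ : K ≃ₐ[ℚ] K => fun j => σ (B j)) '' frobSet K p q).Nonempty := ⟨_, σ, hσ, rfl⟩
    have h2 : 1 ≤ M₁ := ((Set.ncard_pos (Set.toFinite _)).mpr h1).trans_le hM1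
    rcases Nat.eq_zero_or_pos r with hr | hr
    · rw [hM, hr, mul_zero, pow_zero, one_mul]
      exact Nat.mul_pos h2 heE
    · have h3 : 1 ≤ D := by
        have h4 : (orbN N (B ⟨0, hr⟩)).Nonempty := ⟨_, 1, N.one_mem, rfl⟩
        exact ((Set.ncard_pos (orbN_finite N _)).mpr h4).trans_le (hD _)
      rw [hM]
      exact Nat.mul_pos h2 (Nat.mul_pos (Nat.pow_pos h3) heE)
  have hM1' : (1:ℝ) ≤ M := by exact_mod_cast hM1n
  have hN0 : (0:ℝ) < finrank ℚ K := by exact_mod_cast (finrank_pos : 0 < finrank ℚ K)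
  -- units
  have hunit : ∀ x : K, IsU x → ∃ v : (𝓞 K)ˣ, algebraMap (𝓞 K) K (v : 𝓞 K) = x ∧
      algebraMap (𝓞 K) K ((v⁻¹ : (𝓞 K)ˣ) : 𝓞 K) = x⁻¹ := by
    intro x hx
    set b : 𝓞 K := ⟨x, hx.2.1⟩ with hb
    set b' : 𝓞 K := ⟨x⁻¹, hx.2.2⟩ with hb'
    have hbα : algebraMap (𝓞 K) K b = x := rfl
    have hbα' : algebraMap (𝓞 K) K b' = x⁻¹ := rfl
    have hbb : b * b' = 1 := by
      apply RingOfIntegers.coe_injective
      rw [map_mul, hbα, hbα', mul_inv_cancel₀ hx.1, map_one]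
    exact ⟨⟨b, b', hbb, by rw [mul_comm]; exact hbb⟩, rfl, rfl⟩
  choose b hb hb' using fun j => hunit (B j) (hB j)
  choose c hc hc' using fun j => hunit (σ (B j)) ((hB j).aut σ)
  set e : Fin r → (𝓞 K)ˣ := fun j => b j ^ q * (c j)⁻¹ with he
  set w : (Fin r → Fin T) → (𝓞 K)ˣ := fun s => ∏ j, e j ^ (s j : ℕ) with hw
  have heK : ∀ j, algebraMap (𝓞 K) K (e j : 𝓞 K) = B j ^ q * (σ (B j))⁻¹ := by
    intro j
    rw [he]
    simp only [Units.val_mul, Units.val_pow_eq_pow_val, map_mul, map_pow, hb, hc']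
  have hwK : ∀ s, algebraMap (𝓞 K) K (w s : 𝓞 K) = ∏ j, (B j ^ q * (σ (B j))⁻¹) ^ (s j : ℕ) := by
    intro s
    rw [hw]
    simp only [Units.coe_prod, Units.val_pow_eq_pow_val, map_prod, map_pow, heK]
  -- congruences
  have hcong : ∀ 𝔓 ∈ Φ, ∀ s, (w s : 𝓞 K) - 1 ∈ 𝔓 := by
    intro 𝔓 h𝔓 s
    obtain ⟨σ', hσ', hcl⟩ := hF 𝔓 h𝔓
    have he1 : ∀ j, (e j : 𝓞 K) - 1 ∈ 𝔓 := by
      intro j
      have h1 : (c j : 𝓞 K) = σ' • (b j : 𝓞 K) := by
        apply RingOfIntegers.coe_injective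
        rw [hc, smul_coe, hb]
        exact (congrFun hcl j).symm
      have h2 : (b j : 𝓞 K) ^ q - c j ∈ 𝔓 := by
        rw [h1, ← neg_sub]
        exact neg_mem (hσ'.2.2 _)
      have h3 : (e j : 𝓞 K) - 1 = ((b j : 𝓞 K) ^ q - c j) * ((c j)⁻¹ : (𝓞 K)ˣ) := by
        rw [sub_mul, ← Units.val_mul (c j), mul_inv_cancel, Units.val_one, he]
        simp only [Units.val_mul, Units.val_pow_eq_pow_val]
      rw [h3]
      exact Ideal.mul_mem_right _ _ h2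
    have hmk : ∀ j, Ideal.Quotient.mk 𝔓 (e j : 𝓞 K) = 1 := by
      intro j
      rw [← map_one (Ideal.Quotient.mk 𝔓)]
      exact Ideal.Quotient.eq.mpr (he1 j)
    have h4 : Ideal.Quotient.mk 𝔓 (w s : 𝓞 K) = 1 := by
      rw [hw]
      simp only [Units.coe_prod, Units.val_pow_eq_pow_val, map_prod, map_pow, hmk, one_pow,
        Finset.prod_const_one]
    rw [← map_one (Ideal.Quotient.mk 𝔓)] at h4
    exact Ideal.Quotient.eq.mp h4
  -- independence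
  have hne : ∀ j, B j ^ q * (σ (B j))⁻¹ ≠ 0 := fun j =>
    mul_ne_zero (pow_ne_zero _ (hB j).1) (inv_ne_zero ((hB j).aut σ).1)
  have hlge : ∀ j, lg (B j ^ q * (σ (B j))⁻¹) = (q : ℤ) • lg (B j) - act σ (lg (B j)) := by
    intro j
    rw [lg_mul (pow_ne_zero _ (hB j).1) (inv_ne_zero ((hB j).aut σ).1), lg_pow, lg_inv, lg_act,
      natCast_zsmul, sub_eq_add_neg]
  have hlgprod : ∀ s : Fin r → Fin T, lg (algebraMap (𝓞 K) K (w s : 𝓞 K)) =
      ∑ j, ((s j : ℕ) : ℤ) • ((q : ℤ) • lg (B j) - act σ (lg (B j))) := by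
    intro s
    rw [hwK]
    have h1 : ∀ S : Finset (Fin r), (∏ j ∈ S, (B j ^ q * (σ (B j))⁻¹) ^ (s j : ℕ)) ≠ 0 ∧
        lg (∏ j ∈ S, (B j ^ q * (σ (B j))⁻¹) ^ (s j : ℕ)) =
        ∑ j ∈ S, ((s j : ℕ) : ℤ) • ((q : ℤ) • lg (B j) - act σ (lg (B j))) := by
      intro S
      induction S using Finset.induction_on with
      | empty => exact ⟨by simp, by rw [Finset.prod_empty, Finset.sum_empty]; exact lg_one⟩
      | insert i S hi ih =>
        rw [Finset.prod_insert hi, Finset.sum_insert hi]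
        refine ⟨mul_ne_zero (pow_ne_zero _ (hne i)) ih.1, ?_⟩
        rw [lg_mul (pow_ne_zero _ (hne i)) ih.1, ih.2, lg_pow, hlge, ← natCast_zsmul]
    exact (h1 Finset.univ).2
  have hinj : Function.Injective (fun s : Fin r → Fin T => algebraMap (𝓞 K) K (w s : 𝓞 K)) := by
    intro s s' hss
    have h1 := congrArg lg hss
    simp only [hlgprod] at h1
    have h2 : ∑ j, (((s j : ℕ) : ℤ) - ((s' j : ℕ) : ℤ)) • ((q : ℤ) • lg (B j) - act σ (lg (B j))) = 0 := by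
      simp_rw [sub_smul]
      rw [Finset.sum_sub_distrib, h1, sub_self]
    have h3 := (Fintype.linearIndependent_iff.mp (indep_act hind σ hq2)) _ h2
    funext j
    apply Fin.ext
    have := h3 j
    omega
  -- heights
  have hlame : ∀ j, lam (B j ^ q * (σ (B j))⁻¹) ≤ ((p : ℝ) ^ a + 1) * Λ := by
    intro j
    refine (lam_mul_le _ _).trans ?_
    have h1 := (hB j).aut σ
    rw [lam_pow, lam_inv h1.2.1 h1.2.2 h1.1, lam_aut, hqdef]
    push_cast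
    have h2 := hΛ j
    have h3 : (0:ℝ) ≤ (p : ℝ) ^ a := by positivity
    nlinarith
  have hlam : ∀ s, lam (algebraMap (𝓞 K) K (w s : 𝓞 K)) ≤ r * T * ((p : ℝ) ^ a + 1) * Λ := by
    intro s
    rw [hwK]
    refine (lam_prod_le _ _ _).trans ?_
    have h1 : ∀ j ∈ (Finset.univ : Finset (Fin r)),
        ((s j : ℕ) : ℝ) * lam (B j ^ q * (σ (B j))⁻¹) ≤ T * (((p : ℝ) ^ a + 1) * Λ) := by
      intro j _
      apply mul_le_mul _ (hlame j) (lam_nonneg _) (Nat.cast_nonneg _)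
      exact_mod_cast (s j).2.le
    refine (Finset.sum_le_sum h1).trans (le_of_eq ?_)
    rw [Finset.sum_const, Finset.card_univ, Fintype.card_fin, nsmul_eq_mul]
    ring
  -- the energy
  have hfin := energy_bound_norm (K := K) (ι := Fin r → Fin T)
    (fun s => algebraMap (𝓞 K) K (w s : 𝓞 K)) hinj hM1' (by
      intro s s' hss
      set x : 𝓞 K := (w s : 𝓞 K) - w s' with hx
      have hx0 : x ≠ 0 := by
        intro h0
        apply hss
        apply hinj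
        show algebraMap (𝓞 K) K (w s : 𝓞 K) = algebraMap (𝓞 K) K (w s' : 𝓞 K)
        rw [sub_eq_zero.mp h0]
      have hxm : ∀ 𝔓 ∈ Φ, x ∈ 𝔓 := by
        intro 𝔓 h𝔓
        have h1 := Ideal.sub_mem _ (hcong 𝔓 h𝔓 s) (hcong 𝔓 h𝔓 s')
        have h2 : (w s : 𝓞 K) - 1 - ((w s' : 𝓞 K) - 1) = x := by rw [hx]; ring
        rwa [h2] at h1
      have horb : (orbN N (algebraMap (𝓞 K) K x)).ncard ≤ D ^ (2 * r) := by
        have h1 := orb_le_of_tuple N (ι := Fin r ⊕ Fin r) (D := D)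
          (Sum.elim B fun j => σ (B j)) (by
            rintro (j | j)
            · exact hD j
            · exact (orbN_conj N σ (B j)).trans (hD j)) (x := algebraMap (𝓞 K) K x) (by
            intro τ τ' hττ
            rw [hx, map_sub, hwK, hwK, map_sub, map_sub, map_prod, map_prod, map_prod, map_prod]
            have h2 : ∀ j, τ (B j) = τ' (B j) := fun j => hττ (Sum.inl j)
            have h3 : ∀ j, τ (σ (B j)) = τ' (σ (B j)) := fun j => hττ (Sum.inr j)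
            simp only [map_pow, map_mul, map_inv₀, h2, h3])
        rwa [Fintype.card_sum, Fintype.card_fin, ← two_mul] at h1
      have hlogle := norm_lower hp hunE N hNE
        (fun 𝔓 h𝔓 => ⟨(hF₀ 𝔓 h𝔓).1, (hF₀ 𝔓 h𝔓).2.1, (hF₀ 𝔓 h𝔓).2.2.1⟩) hx0 hxm horb
      have hsumlog : ∑ φ : K →ₐ[ℚ] ℂ, Real.log ‖φ (algebraMap (𝓞 K) K (w s : 𝓞 K)) -
          φ (algebraMap (𝓞 K) K (w s' : 𝓞 K))‖ =
          ∑ φ : K →ₐ[ℚ] ℂ, Real.log ‖φ (algebraMap (𝓞 K) K x)‖ := by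
        refine Finset.sum_congr rfl fun φ _ => ?_
        rw [hx, map_sub, map_sub]
      rw [hsumlog]
      have hlp : Real.log 2 ≤ Real.log p := by
        apply Real.log_le_log (by norm_num)
        exact_mod_cast hp.two_le
      calc (finrank ℚ K : ℝ) * Real.log 2 ≤ finrank ℚ K * Real.log p := by gcongr
        _ ≤ M₁ * ∑ 𝔓 ∈ Φ, (mult p 𝔓 : ℝ) * Real.log (Ideal.absNorm 𝔓) := hN₀
        _ ≤ M₁ * (((D ^ (2 * r) * eE : ℕ) : ℝ) * ∑ φ : K →ₐ[ℚ] ℂ, Real.log ‖φ (algebraMap (𝓞 K) K x)‖) := by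
            gcongr
        _ = M * ∑ φ : K →ₐ[ℚ] ℂ, Real.log ‖φ (algebraMap (𝓞 K) K x)‖ := by
            rw [hM]
            push_cast
            ring)
    (τ := r * T * ((p : ℝ) ^ a + 1) * Λ / finrank ℚ K) (by
      intro s
      refine (hlam s).trans (le_of_eq ?_)
      field_simp)
    (by
      rw [Fintype.card_fun, Fintype.card_fin, Fintype.card_fin]
      push_cast
      exact hT)
  rw [le_div_iff₀ hN0] at hfin
  have h3 : (0:ℝ) < 16 * M := by positivity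
  calc (finrank ℚ K : ℝ) = 16 * M * (1 / (16 * M) * finrank ℚ K) := by field_simp
    _ ≤ _ := mul_le_mul_of_nonneg_left hfin h3.le

end Pool.Agent.Run7.h816.MG
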