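import Mathlib
import Pool.Agent.Run7.h22.Rel4
import Pool.Agent.H388SL.Field

/-!
# A Galois number field over a normal subfield
-/

set_option autoImplicit false

open Finset Module NumberField Polynomial

namespace Pool.Agent.Run7.h816.MG

open Pool.Agent.H388SL Pool.Agent.Run7.h22

variable {K : Type} [Field K] [NumberField K]

/-- the automorphisms which fix the field `E` -/
def fixE (K : Type) [Field K] [NumberField K] (E : Type) [Field E] [NumberField E] [Algebra E K] :
    Subgroup (K ≃ₐ[ℚ] K) where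
  carrier := {τ | ∀ y : E, τ (algebraMap E K y) = algebraMap E K y}
  one_mem' := fun _ => rfl
  mul_mem' := by
    intro τ₁ τ₂ h1 h2 y
    rw [AlgEquiv.mul_apply, h2 y, h1 y]
  inv_mem' := by
    intro τ h y
    apply τ.injective
    rw [h y, ← AlgEquiv.mul_apply, mul_inv_cancel, AlgEquiv.one_apply]

variable (E : Type) [Field E] [NumberField E] [Algebra E K]

lemma fixE_mk_eq [Normal ℚ E] {σ σ' : K ≃ₐ[ℚ] K}
    (h : AlgEquiv.restrictNormalHom E σ = AlgEquiv.restrictNormalHom E σ') :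
    σ⁻¹ * σ' ∈ fixE K E := by
  intro y
  apply σ.injective
  have h1 : algebraMap E K (AlgEquiv.restrictNormalHom E σ y) = σ (algebraMap E K y) :=
    AlgEquiv.restrictNormal_commutes σ E y
  have h2 : algebraMap E K (AlgEquiv.restrictNormalHom E σ' y) = σ' (algebraMap E K y) :=
    AlgEquiv.restrictNormal_commutes σ' E y
  rw [← AlgEquiv.mul_apply, mul_inv_cancel_left, ← h1, ← h2, h]

lemma fixE_normal [Normal ℚ E] : (fixE K E).Normal := by
  refine ⟨fun τ hτ h y => ?_⟩
  have h1 : algebraMap E K (AlgEquiv.restrictNormalHom E h⁻¹ y) = h⁻¹ (algebraMap E K y) :=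
    AlgEquiv.restrictNormal_commutes h⁻¹ E y
  rw [AlgEquiv.mul_apply, AlgEquiv.mul_apply, ← h1, hτ, h1, ← AlgEquiv.mul_apply, mul_inv_cancel,
    AlgEquiv.one_apply]

lemma fixE_fixed [IsGalois ℚ K] (x : K) (hx : ∀ τ ∈ fixE K E, τ x = x) :
    ∃ y : E, algebraMap E K y = x := by
  have hg : IsGalois E K := IsGalois.tower_top_of_isGalois ℚ E K
  have h1 : x ∈ Set.range (algebraMap E K) := by
    rw [IsGalois.mem_range_algebraMap_iff_fixed]
    intro f
    exact hx (f.restrictScalars ℚ) fun y => f.commutes y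
  exact h1

lemma finrank_le_card [IsGalois ℚ K] : finrank E K ≤ Nat.card (fixE K E) := by
  have hg : IsGalois E K := IsGalois.tower_top_of_isGalois ℚ E K
  have : FiniteDimensional E K := Module.Finite.of_restrictScalars_finite ℚ E K
  rw [← IsGalois.card_aut_eq_finrank E K]
  apply Nat.card_le_card_of_injective (fun f : K ≃ₐ[E] K =>
    (⟨f.restrictScalars ℚ, fun y => f.commutes y⟩ : fixE K E))
  intro f g h
  apply AlgEquiv.ext
  intro x
  exact AlgEquiv.congr_fun (congrArg Subtype.val h) x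

/-- the restriction of a Frobenius automorphism -/
lemma frob_restrict' {p q : ℕ} [Normal ℚ E] {σ : K ≃ₐ[ℚ] K} {𝔓 : Ideal (𝓞 K)}
    (hσ : IsFrob p q σ 𝔓) :
    IsFrob p q (AlgEquiv.restrictNormalHom E σ) (𝔓.comap (algebraMap (𝓞 E) (𝓞 K))) := by
  obtain ⟨h1, h2, h3⟩ := hσ
  refine ⟨Ideal.comap_isPrime _ _, ?_, fun x => ?_⟩
  · rw [Ideal.mem_comap, map_natCast]
    exact h2
  · rw [Ideal.mem_comap, map_sub, map_pow]
    have h4 : algebraMap (𝓞 E) (𝓞 K) (AlgEquiv.restrictNormalHom E σ • x) =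
        σ • algebraMap (𝓞 E) (𝓞 K) x := by
      apply RingOfIntegers.coe_injective
      exact AlgEquiv.restrictNormal_commutes σ E (algebraMap (𝓞 E) E x)
    rw [h4]
    exact h3 _

lemma fixE_count {p q : ℕ} [Normal ℚ E] :
    (frobMod p q (fixE K E)).ncard ≤ (frobSet E p q).ncard := by
  have h1 : (frobMod p q (fixE K E)).ncard ≤
      ((fun σ => AlgEquiv.restrictNormalHom E σ) '' frobSet K p q).ncard := by
    apply ncard_image_le_of_factor (Set.toFinite _)
    intro σ hσ σ' hσ' heq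
    rw [QuotientGroup.eq]
    exact fixE_mk_eq E heq
  refine h1.trans (Set.ncard_le_ncard ?_ (Set.toFinite _))
  rintro _ ⟨σ, ⟨𝔓, h𝔓⟩, rfl⟩
  exact ⟨_, frob_restrict' E h𝔓⟩

lemma orb_le_degree' (α : K) {D : ℕ} {P : E[X]} (hP : P ≠ 0) (hPD : P.natDegree ≤ D)
    (hPα : aeval α P = 0) : (orbN (fixE K E) α).ncard ≤ D := by
  have h1 : orbN (fixE K E) α ⊆ P.rootSet K := by
    rintro _ ⟨τ, hτ, rfl⟩
    rw [mem_rootSet]
    refine ⟨hP, ?_⟩
    let τ' : K →ₐ[E] K := { (τ : K →+* K) with commutes' := hτ }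
    have h3 : aeval (τ' α) P = τ' (aeval α P) := aeval_algHom_apply τ' α _
    rw [hPα, map_zero] at h3
    exact h3
  exact ((Set.ncard_le_ncard h1 (Set.toFinite _)).trans (ncard_rootSet_le _ _)).trans hPD

/-- sums over embeddings of a function of an element of a subfield -/
lemma sum_embeddings_sub (β : E) (G : ℂ → ℝ) :
    ∑ σ : K →ₐ[ℚ] ℂ, G (σ (algebraMap E K β)) = (finrank E K : ℝ) * ∑ σ : E →ₐ[ℚ] ℂ, G (σ β) := by
  classical
  have : FiniteDimensional E K := Module.Finite.of_restrictScalars_finite ℚ E K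
  rw [Fintype.sum_equiv (algHomEquivSigma (A := ℚ) (B := E) (C := K) (D := ℂ))
    (fun σ : K →ₐ[ℚ] ℂ => G (σ (algebraMap E K β)))
    (fun σ => G (σ.1 β)), ← Finset.univ_sigma_univ,
    Finset.sum_sigma, Finset.mul_sum]
  · refine Finset.sum_congr rfl fun σ _ => ?_
    let _ : Algebra E ℂ := σ.toRingHom.toAlgebra
    refine (Finset.sum_congr rfl (fun s _ => (rfl : _ = G (σ β)))).trans ?_
    rw [Finset.sum_const, nsmul_eq_mul]
    congr 1
    have h1 : Fintype.card (K →ₐ[E] ℂ) = finrank E K := AlgHom.card E K ℂ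
    rw [Finset.card_univ]
    exact_mod_cast h1
  · intro σ
    rfl

lemma lam_sub (β : E) : lam (algebraMap E K β) = finrank E K * lam β :=
  sum_embeddings_sub E β (fun z => Real.log (max 1 ‖z‖))

end Pool.Agent.Run7.h816.MG
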