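import Mathlib

/-!
# A common Galois extension of two number fields over a third
-/

set_option autoImplicit false

open Module NumberField Polynomial

namespace Pool.Agent.Run7.h816.MG

/-- Two extensions of a number field have a common extension which is Galois over the rational
numbers. -/
theorem exists_closure (k E L : Type) [Field k] [NumberField k] [Field E] [NumberField E]
    [Field L] [NumberField L] [Algebra k E] [Algebra k L] :
    ∃ (K : Type) (_ : Field K) (_ : NumberField K) (_ : IsGalois ℚ K) (iE : E →+* K)
      (iL : L →+* K), iE.comp (algebraMap k E) = iL.comp (algebraMap k L) := by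
  have : Algebra.IsAlgebraic k L := Algebra.IsAlgebraic.tower_top (K := ℚ) k
  let jL : L →ₐ[k] AlgebraicClosure E := IsAlgClosed.lift
  let jE' : E →ₐ[ℚ] AlgebraicClosure E := (algebraMap E (AlgebraicClosure E)).toRatAlgHom
  let jL' : L →ₐ[ℚ] AlgebraicClosure E := (jL : L →+* AlgebraicClosure E).toRatAlgHom
  have e1 : FiniteDimensional ℚ jE'.fieldRange :=
    Module.Finite.equiv (AlgEquiv.ofInjectiveField jE').toLinearEquiv
  have e2 : FiniteDimensional ℚ jL'.fieldRange :=
    Module.Finite.equiv (AlgEquiv.ofInjectiveField jL').toLinearEquiv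
  let M : IntermediateField ℚ (AlgebraicClosure E) := jE'.fieldRange ⊔ jL'.fieldRange
  have e3 : FiniteDimensional ℚ M := IntermediateField.finiteDimensional_sup _ _
  have e4 : Algebra.IsAlgebraic ℚ (AlgebraicClosure E) :=
    Algebra.IsAlgebraic.trans ℚ E (AlgebraicClosure E)
  have e8 : IsAlgClosure ℚ (AlgebraicClosure E) := ⟨inferInstance, e4⟩
  have e9 : Normal ℚ (AlgebraicClosure E) := IsAlgClosure.normal ℚ (AlgebraicClosure E)
  let K : IntermediateField ℚ (AlgebraicClosure E) :=
    IntermediateField.normalClosure ℚ M (AlgebraicClosure E)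
  have e5 : FiniteDimensional ℚ K := inferInstance
  have e6 : NumberField K := { to_charZero := inferInstance, to_finiteDimensional := e5 }
  have e7 : Normal ℚ K := normalClosure.normal ℚ M (AlgebraicClosure E)
  have hM : M ≤ K := IntermediateField.le_normalClosure M
  have hE : ∀ x : E, algebraMap E (AlgebraicClosure E) x ∈ K := fun x =>
    hM ((le_sup_left : jE'.fieldRange ≤ M) ⟨x, rfl⟩)
  have hL : ∀ x : L, jL x ∈ K := fun x =>
    hM ((le_sup_right : jL'.fieldRange ≤ M) ⟨x, rfl⟩)
  refine ⟨K, inferInstance, e6, ⟨⟩, (algebraMap E (AlgebraicClosure E)).codRestrict K.toSubring hE,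
    (jL : L →+* AlgebraicClosure E).codRestrict K.toSubring hL, ?_⟩
  ext x
  show algebraMap E (AlgebraicClosure E) (algebraMap k E x) = jL (algebraMap k L x)
  rw [jL.commutes, ← IsScalarTower.algebraMap_apply]

end Pool.Agent.Run7.h816.MG
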