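import Pool.Agent.Run7.h816.MG.Ram8
import Pool.Agent.Run7.h816.MG.Gal
import Pool.Agent.Y399.MG.H

/-!
# Integral matrices over subfields of normal fields with few Frobenius automorphisms
-/

set_option autoImplicit false

open Finset Polynomial Module NumberField

namespace Pool.Agent.Run7.h816.MG

open Pool.Agent.H388SL Pool.Agent.H225R3.Marg Pool.Agent.Run7.h22

/-- the inverse of a root of a monic polynomial whose constant coefficient is a unit -/
lemma inv_integral {A L : Type*} [CommRing A] [Field L] (g : A →+* L) {f : A[X]}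
    (hint : ∀ c : A, IsIntegral ℤ (g c)) (hu : IsUnit (f.coeff 0)) {x : L} (hxi : IsIntegral ℤ x)
    (hx0 : eval₂ g x f = 0) : IsIntegral ℤ x⁻¹ := by
  obtain ⟨u, hu⟩ := hu
  have h1 : eval₂ g x f = eval₂ g x f.divX * x + g (f.coeff 0) := by
    conv_lhs => rw [← divX_mul_X_add f]
    rw [eval₂_add, eval₂_mul, eval₂_X, eval₂_C]
  rw [hx0, ← hu] at h1
  have hv : g ((u⁻¹ : Aˣ) : A) * g (u : A) = 1 := by
    rw [← map_mul, Units.inv_mul, map_one]
  have h2 : (-(g ((u⁻¹ : Aˣ) : A)) * eval₂ g x f.divX) * x = 1 := by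
    linear_combination (-(g ((u⁻¹ : Aˣ) : A))) * (-h1) + hv
  rw [← eq_inv_of_mul_eq_one_left h2]
  refine IsIntegral.mul (hint _).neg ?_
  rw [eval₂_eq_sum_range]
  exact IsIntegral.sum _ fun i _ => (hint _).mul (hxi.pow i)

/-- **From eigenvalues to matrices**, with eigenvalues that are units. -/
theorem gap_of' (k : Type) [Field k] [NumberField k] (n : ℕ) (S : Finset (k →+* ℂ))
    (A : Matrix (Fin n) (Fin n) (𝓞 k)) (P : ℝ → Prop)
    (hP : ∀ (L : Type) [Field L] [NumberField L] [Algebra k L] (x : L) (R : ℝ), x ≠ 0 →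
      IsIntegral ℤ x → IsIntegral ℤ x⁻¹ → (∀ m : ℕ, 0 < m → x ^ m ≠ 1) → 1 ≤ R →
      (∀ τ : L →+* ℂ, τ.comp (algebraMap k L) ∉ S → ‖τ x‖ ≤ 1) → (∀ τ : L →+* ℂ, ‖τ x‖ ≤ R) →
      finrank k L ≤ n → P R)
    (hA : IsUnit A)
    (hout : ∀ σ : k →+* ℂ, σ ∉ S → ∀ l : ℂ, ((emb σ).mapMatrix A).charpoly.IsRoot l → ‖l‖ ≤ 1)
    (hnil : ∀ N : ℕ, 0 < N → ¬ IsNilpotent (A ^ N - 1)) :
    ∃ σ ∈ S, ∃ l : ℂ, ((emb σ).mapMatrix A).charpoly.IsRoot l ∧ 1 < ‖l‖ ∧ P ‖l‖ := by
  classical
  -- a root which is not a root of unity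
  set f : 𝓞 k →+* AlgebraicClosure k :=
    (algebraMap k (AlgebraicClosure k)).comp (algebraMap (𝓞 k) k) with hf
  have hfinj : Function.Injective f :=
    (algebraMap k (AlgebraicClosure k)).injective.comp
      (FaithfulSMul.algebraMap_injective (𝓞 k) k)
  obtain ⟨l, hl, hlN⟩ : ∃ l, (A.charpoly.map f).IsRoot l ∧ ∀ N : ℕ, 0 < N → l ^ N ≠ 1 := by
    by_contra hcon
    push Not at hcon
    obtain ⟨N, hN, h⟩ := nilp_of_roots f hfinj A hcon
    exact hnil N hN h
  have hspec : l ∈ spectrum (AlgebraicClosure k) (f.mapMatrix A) := by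
    rw [Matrix.mem_spectrum_iff_isRoot_charpoly]
    have : (f.mapMatrix A).charpoly = A.charpoly.map f := by rw [← Matrix.charpoly_map]; rfl
    rw [this]
    exact hl
  have hl0 : l ≠ 0 := by
    rintro rfl
    exact (spectrum.zero_notMem_iff _).mpr (hA.map f.mapMatrix) hspec
  -- the field
  have hlint : IsIntegral k l := Algebra.IsIntegral.isIntegral l
  let L := IntermediateField.adjoin k {l}
  haveI : FiniteDimensional k L := IntermediateField.adjoin.finiteDimensional hlint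
  haveI : CharZero L := charZero_of_injective_algebraMap (algebraMap k L).injective
  haveI : NumberField L := NumberField.of_module_finite k L
  let x : L := ⟨l, IntermediateField.mem_adjoin_simple_self k l⟩
  have hxl : algebraMap L (AlgebraicClosure k) x = l := rfl
  set g : 𝓞 k →+* L := (algebraMap k L).comp (algebraMap (𝓞 k) k) with hg
  have hgf : (algebraMap L (AlgebraicClosure k)).comp g = f := by
    rw [hg, hf, ← RingHom.comp_assoc]
    rfl
  have hx0 : eval₂ g x A.charpoly = 0 := by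
    apply (algebraMap L (AlgebraicClosure k)).injective
    rw [map_zero, hom_eval₂, hgf, hxl]
    rw [IsRoot, eval_map] at hl
    exact hl
  haveI : IsScalarTower ℤ (𝓞 k) L := IsScalarTower.of_algebraMap_eq' (RingHom.ext_int _ _)
  have hxint : IsIntegral ℤ x := by
    have h1 : IsIntegral (𝓞 k) x := by
      refine ⟨A.charpoly, A.charpoly_monic, ?_⟩
      have : algebraMap (𝓞 k) L = g := rfl
      rw [this]
      exact hx0
    exact isIntegral_trans x h1
  have hxinv : IsIntegral ℤ x⁻¹ := by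
    refine inv_integral g (fun c => ?_) ?_ hxint hx0
    · have h1 : IsIntegral ℤ c := Algebra.IsIntegral.isIntegral c
      exact h1.map (g.toIntAlgHom)
    · rw [Matrix.isUnit_iff_isUnit_det] at hA
      have h1 := Matrix.det_eq_sign_charpoly_coeff A
      rw [h1] at hA
      exact isUnit_of_mul_isUnit_right hA
  have hxne : x ≠ 0 := by
    intro h
    apply hl0
    rw [← hxl, h, map_zero]
  have hxroot : ∀ N : ℕ, 0 < N → x ^ N ≠ 1 := by
    intro N hN h
    apply hlN N hN
    rw [← hxl, ← map_pow, h, map_one]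
  have hdeg : finrank k L ≤ n := by
    have h1 : finrank k L = (minpoly k l).natDegree := IntermediateField.adjoin.finrank hlint
    rw [h1]
    have h2 : (A.charpoly.map (algebraMap (𝓞 k) k)).Monic := A.charpoly_monic.map _
    have h3 : aeval l (A.charpoly.map (algebraMap (𝓞 k) k)) = 0 := by
      rw [aeval_def, eval₂_map]
      rw [IsRoot, eval_map] at hl
      exact hl
    refine (natDegree_le_of_dvd (minpoly.dvd k l h3) h2.ne_zero).trans ?_
    rw [A.charpoly_monic.natDegree_map, Matrix.charpoly_natDegree_eq_dim, Fintype.card_fin]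
  -- norms of the conjugates
  have hτroot : ∀ τ : L →+* ℂ,
      ((emb (τ.comp (algebraMap k L))).mapMatrix A).charpoly.IsRoot (τ x) := by
    intro τ
    have h1 : ((emb (τ.comp (algebraMap k L))).mapMatrix A).charpoly =
        A.charpoly.map (emb (τ.comp (algebraMap k L))) := by rw [← Matrix.charpoly_map]; rfl
    rw [h1, IsRoot, eval_map]
    have h2 : emb (τ.comp (algebraMap k L)) = τ.comp g := rfl
    rw [h2, ← hom_eval₂, hx0, map_zero]
  have hτout : ∀ τ : L →+* ℂ, τ.comp (algebraMap k L) ∉ S → ‖τ x‖ ≤ 1 :=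
    fun τ hτ => hout _ hτ _ (hτroot τ)
  obtain ⟨τ1, hτ1⟩ : ∃ τ1 : L →+* ℂ, 1 < ‖τ1 x‖ := by
    by_contra hcon
    push Not at hcon
    obtain ⟨N, hN, h⟩ := NumberField.Embeddings.pow_eq_one_of_norm_le_one L ℂ hxne hxint hcon
    exact hxroot N hN h
  obtain ⟨τ0, -, hmax⟩ := Finset.exists_max_image (univ : Finset (L →+* ℂ)) (fun τ => ‖τ x‖)
    ⟨τ1, Finset.mem_univ _⟩
  have hτ0 : 1 < ‖τ0 x‖ := hτ1.trans_le (hmax τ1 (Finset.mem_univ _))
  have hmem : τ0.comp (algebraMap k L) ∈ S := by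
    by_contra h
    exact absurd hτ0 (not_lt.mpr (hτout τ0 h))
  refine ⟨_, hmem, τ0 x, hτroot τ0, hτ0, ?_⟩
  exact hP L x ‖τ0 x‖ hxne hxint hxinv hxroot hτ0.le hτout
    (fun τ => hmax τ (Finset.mem_univ _)) hdeg

/-- the height of an element with few expanding conjugates -/
lemma lam_few {k L : Type} [Field k] [NumberField k] [Field L] [NumberField L] [Algebra k L]
    (S : Finset (k →+* ℂ)) (x : L) {R : ℝ} (hR : 1 ≤ R)
    (hout : ∀ τ : L →+* ℂ, τ.comp (algebraMap k L) ∉ S → ‖τ x‖ ≤ 1)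
    (hin : ∀ τ : L →+* ℂ, ‖τ x‖ ≤ R) :
    lam x ≤ ((S.card * finrank k L : ℕ) : ℝ) * Real.log R := by
  classical
  have h1 : lam x = ∑ τ : L →+* ℂ, Real.log (max 1 ‖τ x‖) := by
    unfold lam
    exact (Fintype.sum_equiv (RingHom.equivRatAlgHom L ℂ) _ _ (fun τ => rfl)).symm
  rw [h1, ← card_over (k := k) (L := L) S, Finset.card_filter]
  push_cast
  rw [Finset.sum_mul]
  refine Finset.sum_le_sum fun τ _ => ?_
  split_ifs with h
  · rw [one_mul]
    exact Real.log_le_log (by positivity) (max_le hR (hin τ))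
  · rw [zero_mul, max_eq_left (hout τ h), Real.log_one]

/-- the factor in the bound -/
noncomputable def fac (n κ : ℕ) : ℝ :=
  (n : ℝ) ^ 9 * (κ : ℝ) * Real.exp (18 * Real.sqrt (Real.log (2 * (κ : ℝ)) * Real.log (2 * n)))

/-- **The gap for subfields of normal fields with few Frobenius automorphisms.** -/
theorem gap_frob : ∃ C : ℝ, 0 < C ∧ ∀ (k : Type) [Field k] [NumberField k]
    (E : Type) [Field E] [NumberField E] [IsGalois ℚ E] [Algebra k E]
    (n : ℕ) (S : Finset (k →+* ℂ)) (A : Matrix (Fin n) (Fin n) (𝓞 k)) (p a : ℕ),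
    p.Prime → 1 ≤ a → ∀ e : ℕ, 1 ≤ e →
    (∀ 𝔮 : Ideal (𝓞 E), 𝔮.IsPrime → (p : 𝓞 E) ∈ 𝔮 → (p : 𝓞 E) ∉ 𝔮 ^ (e + 1)) →
    IsUnit A →
    (∀ σ : k →+* ℂ, σ ∉ S → ∀ l : ℂ, ((emb σ).mapMatrix A).charpoly.IsRoot l → ‖l‖ ≤ 1) →
    (∀ N : ℕ, 0 < N → ¬ IsNilpotent (A ^ N - 1)) →
    ∃ σ ∈ S, ∃ l : ℂ, ((emb σ).mapMatrix A).charpoly.IsRoot l ∧ 1 < ‖l‖ ∧
      (finrank ℚ k : ℝ) ≤ C * (p : ℝ) ^ (a + 1) * fac n (e * (frobSet E p (p ^ a)).ncard) *
        (S.card * Real.log ‖l‖) := by
  obtain ⟨C, hC, hrel⟩ := rel_main'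
  refine ⟨C, hC, ?_⟩
  intro k _ _ E _ _ _ _ n S A p a hp ha e he hram hA hout hnil
  refine gap_of' k n S A (fun R => (finrank ℚ k : ℝ) ≤ C * (p : ℝ) ^ (a + 1) *
    fac n (e * (frobSet E p (p ^ a)).ncard) * (S.card * Real.log R)) ?_ hA hout hnil
  intro L _ _ _ x R hx0 hxi hxinv hroot hR hout' hin hdeg
  obtain ⟨K, _, _, _, iE, iL, hcomp⟩ := exists_closure k E L
  letI : Algebra E K := iE.toAlgebra
  letI : Algebra L K := iL.toAlgebra
  have halg : ∀ y : L, algebraMap L K y = iL y := fun _ => rfl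
  have hU : IsU (iL x) := by
    refine ⟨(map_ne_zero iL).mpr hx0, hxi.map iL.toIntAlgHom, ?_⟩
    rw [← map_inv₀]
    exact hxinv.map iL.toIntAlgHom
  have hroot' : ∀ m : ℕ, 0 < m → iL x ^ m ≠ 1 := by
    intro m hm h
    apply hroot m hm
    apply iL.injective
    rw [map_pow, h, map_one]
  have horb : (orbN (fixE K E) (iL x)).ncard ≤ n := by
    haveI : FiniteDimensional k L := Module.Finite.of_restrictScalars_finite ℚ k L
    have hxk : IsIntegral k x := Algebra.IsIntegral.isIntegral x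
    refine orb_le_degree' E (iL x) (P := (minpoly k x).map (algebraMap k E)) ?_ ?_ ?_
    · exact ((minpoly.monic hxk).map _).ne_zero
    · rw [(minpoly.monic hxk).natDegree_map]
      exact (minpoly.natDegree_le x).trans hdeg
    · rw [aeval_def, eval₂_map]
      have h1 : (algebraMap E K).comp (algebraMap k E) = iL.comp (algebraMap k L) := hcomp
      rw [h1, ← hom_eval₂, ← aeval_def, minpoly.aeval, map_zero]
  have h1 := hrel K E p a hp ha e he hram (iL x) hU hroot' n _ horb (fixE_count E)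
  have h2 : lam (iL x) = finrank L K * lam x := lam_sub L x
  have h3 : finrank ℚ k * finrank k L * finrank L K = finrank ℚ K := by
    rw [Module.finrank_mul_finrank ℚ k L, Module.finrank_mul_finrank ℚ L K]
  have h4 := lam_few S x hR hout' hin
  haveI : FiniteDimensional k L := Module.Finite.of_restrictScalars_finite ℚ k L
  haveI : FiniteDimensional L K := Module.Finite.of_restrictScalars_finite ℚ L K
  have h5 : (0 : ℝ) < finrank k L := by exact_mod_cast finrank_pos
  have h6 : (0 : ℝ) < finrank L K := by exact_mod_cast finrank_pos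
  have h7 : 0 ≤ C * (p : ℝ) ^ (a + 1) * fac n (e * (frobSet E p (p ^ a)).ncard) := by
    unfold fac
    positivity
  have h8 : (finrank ℚ k : ℝ) * (finrank k L * finrank L K) ≤
      (C * (p : ℝ) ^ (a + 1) * fac n (e * (frobSet E p (p ^ a)).ncard) *
        (S.card * Real.log R)) * (finrank k L * finrank L K) := by
    calc (finrank ℚ k : ℝ) * (finrank k L * finrank L K) = ((finrank ℚ K : ℕ) : ℝ) := by
          rw [← h3]; push_cast; ring
      _ ≤ C * (p : ℝ) ^ (a + 1) * fac n (e * (frobSet E p (p ^ a)).ncard) *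
          (finrank L K * lam x) := by
          rw [← h2]
          exact h1
      _ ≤ C * (p : ℝ) ^ (a + 1) * fac n (e * (frobSet E p (p ^ a)).ncard) *
          (finrank L K * (((S.card * finrank k L : ℕ) : ℝ) * Real.log R)) := by
          gcongr
      _ = _ := by push_cast; ring
  exact le_of_mul_le_mul_right h8 (by positivity)

end Pool.Agent.Run7.h816.MG
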