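import Pool.Agent.Run7.h816.MG.Pol
import Pool.Agent.Run7.h22.Sal2
import Pool.Agent.H196R3.ParryB

/-!
# Salem numbers of small degree over a normal field with few Frobenius automorphisms
-/

set_option autoImplicit false

open Finset Polynomial Module NumberField

namespace Pool.Agent.Run7.h816.MG

open Pool.Agent.H388SL Pool.Agent.Run7.h22

/-- **Salem numbers of small degree over a normal field with few Frobenius automorphisms.** -/
theorem salem_rel : ∃ C : ℝ, 0 < C ∧ ∀ (E : Type) [Field E] [NumberField E] [IsGalois ℚ E]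
    (p a : ℕ), p.Prime → 1 ≤ a → ∀ e : ℕ, 1 ≤ e →
    (∀ 𝔮 : Ideal (𝓞 E), 𝔮.IsPrime → (p : 𝓞 E) ∈ 𝔮 → (p : 𝓞 E) ∉ 𝔮 ^ (e + 1)) →
    ∀ β : ℝ, 1 < β → IsIntegral ℤ β → aeval (β⁻¹) (minpoly ℤ β) = 0 →
    (∀ z : ℂ, aeval z (minpoly ℤ β) = 0 → z ≠ (β : ℂ) → ‖z‖ ≤ 1) →
    ∀ P : E[X], P ∣ (minpoly ℤ β).map (algebraMap ℤ E) → 0 < P.natDegree →
    ∀ D : ℕ, P.natDegree ≤ D →
    ((minpoly ℤ β).natDegree : ℝ) ≤ C * (p : ℝ) ^ (a + 1) *
      fac D (e * (frobSet E p (p ^ a)).ncard) * Real.log β := by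
  obtain ⟨C, hC, hrel⟩ := rel_main'
  refine ⟨C, hC, ?_⟩
  intro E _ _ _ p a hp ha e he hram β hβ hint hrec hone P hPf hP0 D hPD
  have hPne : P ≠ 0 := by
    rintro rfl
    rw [natDegree_zero] at hP0
    exact absurd hP0 (lt_irrefl _)
  set f : ℤ[X] := minpoly ℤ β with hfdef
  have hf : Irreducible f := minpoly.irreducible hint
  have hm : f.Monic := minpoly.monic hint
  obtain ⟨K, _, _, _, _, α, hα, hαP⟩ := exists_zero E f P hPf hP0 hPne
  obtain ⟨hαi, hαf, -⟩ := minpoly_eq_of_root hf hm hα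
  have hofReal : ∀ (x : ℝ) (q : ℤ[X]), aeval (x : ℂ) q = ((aeval x q : ℝ) : ℂ) := by
    intro x q
    exact aeval_algebraMap_apply ℂ x q
  have hroot : aeval (β : ℂ) f = 0 := by
    rw [hofReal, hfdef, minpoly.aeval, Complex.ofReal_zero]
  obtain ⟨φ, hφ⟩ := exists_embedding hf hm hα hroot
  have hβ0 : (β : ℂ) ≠ 0 := by exact_mod_cast (by linarith : β ≠ 0)
  have hα0 : α ≠ 0 := by
    rintro rfl
    rw [map_zero] at hφ
    exact hβ0 hφ.symm
  have hU : IsU α := by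
    refine ⟨hα0, hαi, ?_⟩
    have h1 : IsIntegral ℤ ((β : ℂ)⁻¹) := by
      refine ⟨f, hm, ?_⟩
      rw [← aeval_def, ← Complex.ofReal_inv, hofReal, hrec, Complex.ofReal_zero]
    rw [← hφ, ← map_inv₀] at h1
    exact (isIntegral_algHom_iff (φ.restrictScalars ℤ) φ.toRingHom.injective).mp h1
  have hr : ∀ n : ℕ, 0 < n → α ^ n ≠ 1 := by
    intro n hn h
    have h1 : (β : ℂ) ^ n = 1 := by rw [← hφ, ← map_pow, h, map_one]
    have h2 : β ^ n = 1 := by exact_mod_cast h1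
    exact absurd h2 (one_lt_pow₀ hβ hn.ne').ne'
  have hlam := lam_eq_MM hαi
  rw [hαf] at hlam
  have hMM : MM f = β := Pool.Agent.H196R3.Parry.mahler_eq hβ hint hone
  rw [hMM] at hlam
  have h3 := hrel K E p a hp ha e he hram α hU hr D _ (orb_le_degree' E α hPne hPD hαP)
    (fixE_count E)
  set B : ℝ := C * (p : ℝ) ^ (a + 1) * fac D (e * (frobSet E p (p ^ a)).ncard) with hB
  have h3' : (finrank ℚ K : ℝ) ≤ B * lam α := h3
  have hN : (0:ℝ) < finrank ℚ K := by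
    exact_mod_cast (finrank_pos : 0 < finrank ℚ K)
  have h4 : (f.natDegree : ℝ) * finrank ℚ K ≤ (B * Real.log β) * finrank ℚ K := by
    have h5 : (f.natDegree : ℝ) * finrank ℚ K ≤
        f.natDegree * (B * lam α) := mul_le_mul_of_nonneg_left h3' (Nat.cast_nonneg _)
    have h6 : (f.natDegree : ℝ) * (B * lam α) = (B * Real.log β) * finrank ℚ K := by
      linear_combination B * hlam
    linarith
  exact le_of_mul_le_mul_right h4 hN

end Pool.Agent.Run7.h816.MG
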