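import Pool.Agent.Run7.h816.MG.Marg
import Pool.Agent.Run7.h22.Rel7

/-!
# Lehmer's problem for polynomials with a factor of small degree over a normal field
-/

set_option autoImplicit false

open Finset Polynomial Module NumberField

namespace Pool.Agent.Run7.h816.MG

open Pool.Agent.H388SL Pool.Agent.Run7.h22

/-- a zero in a common Galois field -/
lemma exists_zero (E : Type) [Field E] [NumberField E] (f : ℤ[X]) (P : E[X])
    (hP : P ∣ f.map (algebraMap ℤ E)) (hP0 : 0 < P.natDegree) (hPne : P ≠ 0) :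
    ∃ (K : Type) (_ : Field K) (_ : NumberField K) (_ : IsGalois ℚ K) (_ : Algebra E K) (α : K),
      aeval α f = 0 ∧ aeval α P = 0 := by
  obtain ⟨Q, hQi, hQP⟩ := WfDvdMonoid.exists_irreducible_factor
    (fun h => by rw [natDegree_eq_zero_of_isUnit h] at hP0; exact absurd hP0 (lt_irrefl _)) hPne
  have : Fact (Irreducible Q) := ⟨hQi⟩
  have hfin : Module.Finite E (AdjoinRoot Q) := (AdjoinRoot.powerBasis hQi.ne_zero).finite
  have hch : CharZero (AdjoinRoot Q) :=
    charZero_of_injective_algebraMap (algebraMap E (AdjoinRoot Q)).injective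
  have hnf : NumberField (AdjoinRoot Q) := NumberField.of_module_finite E (AdjoinRoot Q)
  obtain ⟨K, i1, i2, i3, iE, iL, hcomp⟩ := exists_closure E E (AdjoinRoot Q)
  let i4 : Algebra E K := iE.toAlgebra
  have hQ0 : eval₂ iE (iL (AdjoinRoot.root Q)) Q = 0 := by
    have h1 : iE = iL.comp (algebraMap E (AdjoinRoot Q)) := by
      rw [← hcomp]
      rfl
    rw [h1, ← hom_eval₂]
    have h2 : eval₂ (algebraMap E (AdjoinRoot Q)) (AdjoinRoot.root Q) Q = 0 :=
      AdjoinRoot.eval₂_root Q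
    rw [h2, map_zero]
  have hP0' : eval₂ iE (iL (AdjoinRoot.root Q)) P = 0 := by
    obtain ⟨c, hc⟩ := hQP
    rw [hc, eval₂_mul, hQ0, zero_mul]
  refine ⟨K, i1, i2, i3, i4, iL (AdjoinRoot.root Q), ?_, hP0'⟩
  obtain ⟨c, hc⟩ := hP
  have h1 : eval₂ iE (iL (AdjoinRoot.root Q)) (f.map (algebraMap ℤ E)) = 0 := by
    rw [hc, eval₂_mul, hP0', zero_mul]
  rw [eval₂_map] at h1
  rw [aeval_def]
  have h2 : algebraMap ℤ K = iE.comp (algebraMap ℤ E) := RingHom.ext_int _ _
  rw [h2]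
  exact h1

/-- **Lehmer's problem for polynomials with a factor of small degree over a normal field with few
Frobenius automorphisms.** -/
theorem poly_rel2 : ∃ C : ℝ, 0 < C ∧ ∀ (E : Type) [Field E] [NumberField E] [IsGalois ℚ E]
    (p a : ℕ), p.Prime → 1 ≤ a → ∀ e : ℕ, 1 ≤ e →
    (∀ 𝔮 : Ideal (𝓞 E), 𝔮.IsPrime → (p : 𝓞 E) ∈ 𝔮 → (p : 𝓞 E) ∉ 𝔮 ^ (e + 1)) →
    ∀ f : ℤ[X], Irreducible f → 1 < MM f → MM f < 2 →
    ∀ P : E[X], P ∣ f.map (algebraMap ℤ E) → 0 < P.natDegree → ∀ D : ℕ, P.natDegree ≤ D →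
    (f.natDegree : ℝ) ≤ C * (p : ℝ) ^ (a + 1) * fac D (e * (frobSet E p (p ^ a)).ncard) *
      Real.log (MM f) := by
  obtain ⟨C, hC, hrel⟩ := rel_main'
  refine ⟨C, hC, ?_⟩
  intro E _ _ _ p a hp ha e he hram f hf h1 h2 P hPf hP0 D hPD
  have hPne : P ≠ 0 := by
    rintro rfl
    rw [natDegree_zero] at hP0
    exact absurd hP0 (lt_irrefl _)
  obtain ⟨K, _, _, _, _, α, hα, hαP⟩ := exists_zero E f P hPf hP0 hPne
  obtain ⟨hU, hroot, hlam⟩ := unit_of_root f hf h1 h2 hα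
  have h3 := hrel K E p a hp ha e he hram α hU hroot D _ (orb_le_degree' E α hPne hPD hαP)
    (fixE_count E)
  set B : ℝ := C * (p : ℝ) ^ (a + 1) * fac D (e * (frobSet E p (p ^ a)).ncard) with hB
  have h3' : (finrank ℚ K : ℝ) ≤ B * lam α := h3
  have hN : (0:ℝ) < finrank ℚ K := by
    exact_mod_cast (finrank_pos : 0 < finrank ℚ K)
  have h4 : (f.natDegree : ℝ) * finrank ℚ K ≤ (B * Real.log (MM f)) * finrank ℚ K := by
    have h5 : (f.natDegree : ℝ) * finrank ℚ K ≤
        f.natDegree * (B * lam α) := mul_le_mul_of_nonneg_left h3' (Nat.cast_nonneg _)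
    have h6 : (f.natDegree : ℝ) * (B * lam α) = (B * Real.log (MM f)) * finrank ℚ K := by
      linear_combination (-B) * hlam
    linarith
  exact le_of_mul_le_mul_right h4 hN

end Pool.Agent.Run7.h816.MG
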