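import Mathlib
import Pool.Agent.Run7.h816.MG.Ram4

/-!
# The automorphisms which act trivially on the logarithms of the conjugates
-/

set_option autoImplicit false
set_option linter.deprecated false

open Finset Module NumberField

namespace Pool.Agent.Run7.h816.MG

open Pool.Agent.H388SL Pool.Agent.Run7.h22

/-- the ramification index is at most the ramification index below times the degree -/
lemma ram_le {E F : Type} [Field E] [NumberField E] [Field F] [NumberField F] [Algebra E F] {p : ℕ}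
    (hp : p ≠ 0) {eE : ℕ}
    (hunE : ∀ 𝔮 : Ideal (𝓞 E), 𝔮.IsPrime → (p : 𝓞 E) ∈ 𝔮 → (p : 𝓞 E) ∉ 𝔮 ^ (eE + 1))
    {𝔓 : Ideal (𝓞 F)} (h1 : 𝔓.IsPrime) (h2 : (p : 𝓞 F) ∈ 𝔓) {e : ℕ} (he : (p : 𝓞 F) ∈ 𝔓 ^ e) :
    e ≤ eE * finrank E F := by
  set 𝔮 : Ideal (𝓞 E) := 𝔓.comap (algebraMap (𝓞 E) (𝓞 F)) with h𝔮
  have hq : 𝔮.IsPrime := Ideal.comap_isPrime _ _
  have hpq : (p : 𝓞 E) ∈ 𝔮 := by
    rw [h𝔮, Ideal.mem_comap, map_natCast]
    exact h2
  have hq0 : 𝔮 ≠ ⊥ := by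
    intro h0
    rw [h0, Ideal.mem_bot] at hpq
    exact hp (by exact_mod_cast hpq)
  have hqm : 𝔮.IsMaximal := hq.isMaximal hq0
  have hP0 : 𝔓 ≠ ⊥ := by
    intro h0
    rw [h0, Ideal.mem_bot] at h2
    exact hp (by exact_mod_cast h2)
  have hover : 𝔓.LiesOver 𝔮 := ⟨rfl⟩
  have hprime : Prime 𝔓 := Ideal.prime_of_isPrime hP0 h1
  obtain ⟨j, 𝔟, hjE, h𝔟, hn⟩ := exists_exact (hunE 𝔮 hq hpq)
  have hmap0 : Ideal.map (algebraMap (𝓞 E) (𝓞 F)) 𝔮 ≠ ⊥ := by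
    intro h0
    apply hq0
    rw [eq_bot_iff]
    intro y hy
    have h3 : algebraMap (𝓞 E) (𝓞 F) y ∈ Ideal.map (algebraMap (𝓞 E) (𝓞 F)) 𝔮 :=
      Ideal.mem_map_of_mem _ hy
    rw [h0, Ideal.mem_bot] at h3
    rw [Ideal.mem_bot]
    exact (FaithfulSMul.algebraMap_eq_zero_iff (𝓞 E) (𝓞 F)).mp h3
  have hnz : NoZeroSMulDivisors (𝓞 E) (𝓞 F) := by
    refine ⟨fun {c x} h => ?_⟩
    rw [Algebra.smul_def, mul_eq_zero] at h
    exact h.imp_left (FaithfulSMul.algebraMap_eq_zero_iff (𝓞 E) (𝓞 F)).mp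
  have h3 : Ideal.ramificationIdx' 𝔮 𝔓 ≤ finrank E F :=
    Ideal.ramificationIdx_le_finrank (𝓞 F) E F (p := 𝔮) 𝔓
  rw [Ideal.IsDedekindDomain.ramificationIdx'_eq_multiplicity hmap0 h1] at h3
  have hdvd : 𝔓 ^ e ∣ Ideal.map (algebraMap (𝓞 E) (𝓞 F)) 𝔮 ^ j := by
    apply hprime.pow_dvd_of_dvd_mul_right e (b := Ideal.map (algebraMap (𝓞 E) (𝓞 F)) 𝔟)
    · intro hcon
      apply hn
      have h4 : Ideal.map (algebraMap (𝓞 E) (𝓞 F)) 𝔟 ≤ 𝔓 := Ideal.dvd_iff_le.mp hcon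
      exact Ideal.map_le_iff_le_comap.mp h4
    · rw [← Ideal.map_pow, ← Ideal.map_mul, ← h𝔟, Ideal.map_span, Set.image_singleton, map_natCast,
        Ideal.dvd_span_singleton]
      exact he
  have hfm : FiniteMultiplicity 𝔓 (Ideal.map (algebraMap (𝓞 E) (𝓞 F)) 𝔮) :=
    FiniteMultiplicity.of_prime_left hprime hmap0
  have h4 : e ≤ multiplicity 𝔓 (Ideal.map (algebraMap (𝓞 E) (𝓞 F)) 𝔮 ^ j) :=
    FiniteMultiplicity.le_multiplicity_of_pow_dvd (hfm.pow hprime) hdvd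
  rw [FiniteMultiplicity.multiplicity_pow hprime hfm] at h4
  exact h4.trans (Nat.mul_le_mul hjE h3)

variable {K : Type} [Field K] [NumberField K]

/-- the automorphisms in `N` which act trivially on the conjugates of `α`, up to roots of unity -/
def kerL (N : Subgroup (K ≃ₐ[ℚ] K)) (α : K) : Subgroup (K ≃ₐ[ℚ] K) where
  carrier := {τ | τ ∈ N ∧ ∀ g : K ≃ₐ[ℚ] K, lg (τ (g α)) = lg (g α)}
  one_mem' := ⟨N.one_mem, fun _ => rfl⟩
  mul_mem' := by
    rintro τ₁ τ₂ ⟨h1, h3⟩ ⟨h1', h3'⟩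
    refine ⟨N.mul_mem h1 h1', fun g => ?_⟩
    have h4 := h3 (τ₂ * g)
    rw [AlgEquiv.mul_apply] at h4
    rw [AlgEquiv.mul_apply, h4, h3']
  inv_mem' := by
    rintro τ ⟨h1, h3⟩
    refine ⟨N.inv_mem h1, fun g => ?_⟩
    have h4 := h3 (τ⁻¹ * g)
    rw [AlgEquiv.mul_apply, ← AlgEquiv.mul_apply, mul_inv_cancel, AlgEquiv.one_apply] at h4
    exact h4.symm

lemma kerL_le (N : Subgroup (K ≃ₐ[ℚ] K)) (α : K) : kerL N α ≤ N := fun _ h => h.1

lemma kerL_normal (N : Subgroup (K ≃ₐ[ℚ] K)) [hN : N.Normal] (α : K) : (kerL N α).Normal := by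
  refine ⟨fun τ hτ h => ?_⟩
  obtain ⟨h1, h3⟩ := hτ
  refine ⟨hN.conj_mem τ h1 h, fun g => ?_⟩
  have h4 := h3 (h⁻¹ * g)
  rw [AlgEquiv.mul_apply, AlgEquiv.mul_apply, lg_act h]
  rw [AlgEquiv.mul_apply] at h4
  rw [h4, ← lg_act, ← AlgEquiv.mul_apply, mul_inv_cancel, AlgEquiv.one_apply]

/-- two automorphisms with the same images of a maximal independent family -/
lemma mem_kerL (N : Subgroup (K ≃ₐ[ℚ] K)) {α : K} {R : ℕ} (B : Fin R → K)
    (hspan : ∀ g : K ≃ₐ[ℚ] K, lg (g α) ∈ Submodule.span ℚ (Set.range fun j => lg (B j)))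
    {σ σ' : K ≃ₐ[ℚ] K} (h1 : σ⁻¹ * σ' ∈ N) (h2 : ∀ j, σ (B j) = σ' (B j)) :
    σ⁻¹ * σ' ∈ kerL N α := by
  refine ⟨h1, fun g => ?_⟩
  set τ := σ⁻¹ * σ' with hτ
  let A : ((K →ₐ[ℚ] ℂ) → ℝ) →ₗ[ℚ] ((K →ₐ[ℚ] ℂ) → ℝ) :=
    { toFun := act τ
      map_add' := fun v w => rfl
      map_smul' := fun c v => rfl }
  have h3 : Set.EqOn A (LinearMap.id : ((K →ₐ[ℚ] ℂ) → ℝ) →ₗ[ℚ] ((K →ₐ[ℚ] ℂ) → ℝ))
      (Set.range fun j => lg (B j)) := by
    rintro _ ⟨j, rfl⟩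
    show act τ (lg (B j)) = lg (B j)
    rw [← lg_act]
    congr 1
    rw [hτ, AlgEquiv.mul_apply, ← h2 j, ← AlgEquiv.mul_apply, inv_mul_cancel, AlgEquiv.one_apply]
  exact LinearMap.eqOn_span h3 (hspan g)

/-- the number of the Frobenius automorphisms modulo `kerL` -/
lemma kerL_count {p q : ℕ} (N : Subgroup (K ≃ₐ[ℚ] K)) [N.Normal] {α : K} {D k R : ℕ}
    (B : Fin R → K) (hDB : ∀ j, (orbN N (B j)).ncard ≤ D)
    (hk : (frobMod p q N).ncard ≤ k)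
    (hspan : ∀ g : K ≃ₐ[ℚ] K, lg (g α) ∈ Submodule.span ℚ (Set.range fun j => lg (B j))) :
    (frobMod p q (kerL N α)).ncard ≤ k * D ^ R := by
  refine le_trans ?_ (tuple_count N (frobSet K p q) B hDB hk)
  unfold frobMod
  apply ncard_image_le_of_factor (Set.toFinite _)
  intro σ hσ σ' hσ' heq
  have he1 : (QuotientGroup.mk σ : (K ≃ₐ[ℚ] K) ⧸ N) = QuotientGroup.mk σ' := congrArg Prod.fst heq
  have he2 : ∀ j, σ (B j) = σ' (B j) := fun j => congrFun (congrArg Prod.snd heq) j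
  rw [QuotientGroup.eq]
  exact mem_kerL N B hspan (QuotientGroup.eq.mp he1) he2

/-- the index of `kerL` in `N` -/
lemma kerL_index (N : Subgroup (K ≃ₐ[ℚ] K)) {α : K} {D R : ℕ}
    (B : Fin R → K) (hDB : ∀ j, (orbN N (B j)).ncard ≤ D)
    (hspan : ∀ g : K ≃ₐ[ℚ] K, lg (g α) ∈ Submodule.span ℚ (Set.range fun j => lg (B j))) :
    Nat.card N ≤ D ^ R * Nat.card (kerL N α) := by
  set H := (kerL N α).subgroupOf N with hH
  have h1 : H.index * Nat.card (kerL N α) = Nat.card N := by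
    rw [← Nat.card_congr (Subgroup.subgroupOfEquivOfLe (kerL_le N α)).toEquiv]
    exact Subgroup.index_mul_card H
  rw [← h1]
  apply Nat.mul_le_mul_right
  set S := ((fun τ : K ≃ₐ[ℚ] K => fun j => τ (B j)) '' (N : Set (K ≃ₐ[ℚ] K))) with hS
  have hSfin : S.Finite := (Set.toFinite _).image _
  have : Finite S := hSfin
  have hinj : Function.Injective (fun q : N ⧸ H =>
      (⟨fun j => (q.out : K ≃ₐ[ℚ] K) (B j), ⟨(q.out : K ≃ₐ[ℚ] K), q.out.2, rfl⟩⟩ : S)) := by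
    intro q q' hqq
    have h2 : (fun j => (q.out : K ≃ₐ[ℚ] K) (B j)) = fun j => (q'.out : K ≃ₐ[ℚ] K) (B j) :=
      congrArg Subtype.val hqq
    rw [← QuotientGroup.out_eq' q, ← QuotientGroup.out_eq' q', QuotientGroup.eq]
    show _ ∈ (kerL N α).subgroupOf N
    rw [Subgroup.mem_subgroupOf]
    have h3 := mem_kerL N B hspan (σ := (q.out : K ≃ₐ[ℚ] K)) (σ' := (q'.out : K ≃ₐ[ℚ] K))
      (N.mul_mem (N.inv_mem q.out.2) q'.out.2) (fun j => congrFun h2 j)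
    exact h3
  have h2 := Nat.card_le_card_of_injective _ hinj
  rw [Nat.card_coe_set_eq] at h2
  refine h2.trans ?_
  have h3 := orb_tuple N B hDB
  rwa [Fintype.card_fin] at h3

/-- a product of images of `α` which is fixed by `kerL` -/
lemma kerL_unit (N : Subgroup (K ≃ₐ[ℚ] K)) {α : K} (hα : IsU α)
    (hroot : ∀ n : ℕ, 0 < n → α ^ n ≠ 1) {D : ℕ} (hD : (orbN N α).ncard ≤ D) :
    ∃ β : K, IsU β ∧ (∀ n : ℕ, 0 < n → β ^ n ≠ 1) ∧ (∀ τ ∈ kerL N α, τ β = β) ∧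
      lam β ≤ D * lam α := by
  classical
  set Y : Finset K := (orbN_finite (kerL N α) α).toFinset with hY
  have hYmem : ∀ z, z ∈ Y ↔ ∃ τ ∈ kerL N α, τ α = z := by
    intro z
    rw [hY, Set.Finite.mem_toFinset]
    exact Iff.rfl
  have hαY : α ∈ Y := (hYmem α).mpr ⟨1, (kerL N α).one_mem, rfl⟩
  have hYU : ∀ z ∈ Y, IsU z := by
    intro z hz
    obtain ⟨τ, -, rfl⟩ := (hYmem z).mp hz
    exact hα.aut τ
  have hYlg : ∀ z ∈ Y, lg z = lg α := by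
    intro z hz
    obtain ⟨τ, hτ, rfl⟩ := (hYmem z).mp hz
    have := hτ.2 1
    rwa [AlgEquiv.one_apply] at this
  have hcard : Y.card ≤ D := by
    refine le_trans ?_ hD
    rw [hY, ← Set.ncard_eq_toFinset_card _ (orbN_finite (kerL N α) α)]
    apply Set.ncard_le_ncard _ (orbN_finite N α)
    rintro _ ⟨τ, hτ, rfl⟩
    exact ⟨τ, hτ.1, rfl⟩
  have hcard1 : 0 < Y.card := Finset.card_pos.mpr ⟨α, hαY⟩
  have hprod : ∀ S ⊆ Y, IsU (∏ z ∈ S, z) ∧ lg (∏ z ∈ S, z) = S.card • lg α := by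
    intro S
    induction S using Finset.induction_on with
    | empty =>
      intro _
      refine ⟨⟨?_, ?_, ?_⟩, ?_⟩
      · simp
      · simpa using (isIntegral_one : IsIntegral ℤ (1 : K))
      · simpa using (isIntegral_one : IsIntegral ℤ (1 : K))
      · rw [Finset.prod_empty, Finset.card_empty, zero_smul]
        exact lg_one
    | insert z S hz ih =>
      intro hS
      have h1 := ih ((Finset.subset_insert z S).trans hS)
      have hzY := hS (Finset.mem_insert_self z S)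
      have h2 := hYU z hzY
      rw [Finset.prod_insert hz, Finset.card_insert_of_notMem hz]
      refine ⟨⟨mul_ne_zero h2.1 h1.1.1, h2.2.1.mul h1.1.2.1, ?_⟩, ?_⟩
      · rw [mul_inv]
        exact h2.2.2.mul h1.1.2.2
      · rw [lg_mul h2.1 h1.1.1, h1.2, hYlg z hzY, succ_nsmul, add_comm]
  obtain ⟨hβU, hβlg⟩ := hprod Y (Finset.Subset.refl Y)
  set β : K := ∏ z ∈ Y, z with hβ
  have hlen : len (lg β) = Y.card * len (lg α) := by
    rw [hβlg]
    unfold len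
    rw [Finset.mul_sum]
    refine Finset.sum_congr rfl fun φ _ => ?_
    rw [Pi.smul_apply, nsmul_eq_mul, abs_mul, Nat.abs_cast]
  have hlam : lam β = Y.card * lam α := by
    rw [hβU.len, hα.len] at hlen
    linarith
  have hlamα : 0 < lam α := lam_pos hα.2.1 hα.1 hroot
  refine ⟨β, hβU, ?_, ?_, ?_⟩
  · intro n hn hn1
    have h1 := lg_root hn hn1
    have h2 : lam β = 0 := by
      have h3 := hβU.len
      rw [h1] at h3
      have h4 : len (0 : (K →ₐ[ℚ] ℂ) → ℝ) = 0 := by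
        unfold len
        simp
      rw [h4] at h3
      linarith
    rw [hlam] at h2
    have h3 : (0:ℝ) < Y.card := by exact_mod_cast hcard1
    have := mul_pos h3 hlamα
    linarith
  · intro τ hτ
    rw [hβ, map_prod]
    refine Finset.prod_bij (fun z _ => τ z) ?_ ?_ ?_ ?_
    · intro z hz
      obtain ⟨τ', hτ', rfl⟩ := (hYmem z).mp hz
      exact (hYmem _).mpr ⟨τ * τ', (kerL N α).mul_mem hτ hτ', rfl⟩
    · intro z _ z' _ h
      exact τ.injective h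
    · intro z hz
      obtain ⟨τ', hτ', rfl⟩ := (hYmem z).mp hz
      refine ⟨(τ⁻¹ * τ') α, (hYmem _).mpr ⟨τ⁻¹ * τ',
        (kerL N α).mul_mem ((kerL N α).inv_mem hτ) hτ', rfl⟩, ?_⟩
      rw [← AlgEquiv.mul_apply, mul_inv_cancel_left]
    · intro z _
      rfl
  · rw [hlam]
    apply mul_le_mul_of_nonneg_right _ hlamα.le
    exact_mod_cast hcard

end Pool.Agent.Run7.h816.MG
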