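import Mathlib
import Pool.Agent.Run7.h816.MG.Ram5
import Pool.Agent.Run7.h816.MG.Ram6

/-!
# The low rank case
-/

set_option autoImplicit false

open Finset Module NumberField

namespace Pool.Agent.Run7.h816.MG

open Pool.Agent.H388SL Pool.Agent.Run7.h22

/-- the bound if the logarithms of the conjugates of `α` are generated by those of `R` elements with
few images -/
theorem low_rank : ∃ C : ℝ, 0 < C ∧ ∀ (K : Type) [Field K] [NumberField K] [IsGalois ℚ K]
    (E : Type) [Field E] [NumberField E] [IsGalois ℚ E] [Algebra E K] (p a : ℕ),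
    p.Prime → 1 ≤ a → ∀ eE : ℕ,
    (∀ 𝔮 : Ideal (𝓞 E), 𝔮.IsPrime → (p : 𝓞 E) ∈ 𝔮 → (p : 𝓞 E) ∉ 𝔮 ^ (eE + 1)) →
    ∀ (α : K), IsU α → (∀ n : ℕ, 0 < n → α ^ n ≠ 1) →
    ∀ (D k R : ℕ) (B : Fin R → K), (orbN (fixE K E) α).ncard ≤ D →
    (frobMod p (p ^ a) (fixE K E)).ncard ≤ k →
    (∀ j, (orbN (fixE K E) (B j)).ncard ≤ D) →
    (∀ g : K ≃ₐ[ℚ] K, lg (g α) ∈ Submodule.span ℚ (Set.range fun j => lg (B j))) →
    (finrank ℚ K : ℝ) ≤ C * (p : ℝ) ^ (a + 1) * ((eE * D ^ R : ℕ) : ℝ) *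
      (((k * D ^ R : ℕ) : ℝ) * Real.exp (9 * Real.sqrt (Real.log (2 * ((k * D ^ R : ℕ) : ℝ))))) *
        (D * lam α) := by
  classical
  obtain ⟨C, hC, hmain⟩ := field_main_R
  refine ⟨C, hC, ?_⟩
  intro K _ _ _ E _ _ _ _ p a hp ha eE hunE α hα hroot D k R B hD hk hDB hspan
  have hNn : (fixE K E).Normal := fixE_normal E
  set M₀ := kerL (fixE K E) α with hM₀
  have hM₀n : M₀.Normal := kerL_normal (fixE K E) α
  let F : IntermediateField ℚ K := IntermediateField.fixedField M₀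
  have hFg : IsGalois ℚ F := IsGalois.of_fixedField_normal_subgroup M₀
  have hEF : ∀ y : E, algebraMap E K y ∈ F := by
    intro y
    rw [IntermediateField.mem_fixedField_iff]
    intro τ hτ
    exact (kerL_le _ α hτ) y
  letI : Algebra E F := ((algebraMap E K).codRestrict F hEF).toAlgebra
  have htow : IsScalarTower E F K := IsScalarTower.of_algebraMap_eq fun y => rfl
  -- the degree
  have hdeg : finrank E F ≤ D ^ R := by
    have h1 : finrank E F * finrank F K = finrank E K := Module.finrank_mul_finrank E F K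
    have h2 : finrank F K = Nat.card M₀ := IntermediateField.finrank_fixedField_eq_card M₀
    have h3 : finrank E K ≤ Nat.card (fixE K E) := finrank_le_card E
    have h4 : Nat.card (fixE K E) ≤ D ^ R * Nat.card M₀ := kerL_index (fixE K E) B hDB hspan
    have h5 : 0 < Nat.card M₀ := Nat.card_pos
    rw [h2] at h1
    exact Nat.le_of_mul_le_mul_right (h1.le.trans (h3.trans h4)) h5
  -- the unit
  obtain ⟨β, hβU, hβroot, hβfix, hβlam⟩ := kerL_unit (fixE K E) hα hroot hD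
  have hβF : β ∈ F := by
    rw [IntermediateField.mem_fixedField_iff]
    exact hβfix
  set β' : F := ⟨β, hβF⟩ with hβ'
  have hββ : algebraMap F K β' = β := rfl
  have hinj : Function.Injective (algebraMap F K) := (algebraMap F K).injective
  have hβ'U : IsU β' := by
    refine ⟨?_, ?_, ?_⟩
    · intro h0
      apply hβU.1
      rw [← hββ, h0, map_zero]
    · have h1 := hβU.2.1
      rw [← hββ] at h1
      exact (isIntegral_algebraMap_iff hinj).mp h1
    · have h1 := hβU.2.2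
      rw [← hββ, ← map_inv₀] at h1
      exact (isIntegral_algebraMap_iff hinj).mp h1
  have hβ'root : ∀ n : ℕ, 0 < n → β' ^ n ≠ 1 := by
    intro n hn h1
    apply hβroot n hn
    rw [← hββ, ← map_pow, h1, map_one]
  -- the Frobenius automorphisms
  set S : Set (F ≃ₐ[ℚ] F) := (fun σ => AlgEquiv.restrictNormalHom F σ) '' frobSet K p (p ^ a) with hS
  have hSc : ∀ σ ∈ S, ∀ g : F ≃ₐ[ℚ] F, g * σ * g⁻¹ ∈ S := by
    rintro _ ⟨σ, ⟨𝔓, h𝔓⟩, rfl⟩ g
    obtain ⟨g', rfl⟩ := AlgEquiv.restrictNormalHom_surjective (F := ℚ) (K₁ := F) K g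
    refine ⟨g' * σ * g'⁻¹, ?_, ?_⟩
    · have h := h𝔓.comap g'⁻¹
      rw [inv_inv] at h
      exact ⟨_, h⟩
    · simp only [map_mul, map_inv]
  have hSF : ∀ 𝔮 : Ideal (𝓞 F), 𝔮.IsPrime → (p : 𝓞 F) ∈ 𝔮 → ∃ σ ∈ S, IsFrob p (p ^ a) σ 𝔮 := by
    intro 𝔮 h1 h2
    obtain ⟨𝔓, h𝔓, h𝔓𝔮⟩ := Ideal.exists_ideal_over_prime_of_isIntegral_of_isDomain (S := 𝓞 K) 𝔮 (by
      rw [(RingHom.injective_iff_ker_eq_bot _).mp (FaithfulSMul.algebraMap_injective (𝓞 F) (𝓞 K))]
      exact bot_le)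
    have hp𝔓 : (p : 𝓞 K) ∈ 𝔓 := by
      have h3 : (p : 𝓞 F) ∈ 𝔓.comap (algebraMap (𝓞 F) (𝓞 K)) := by rw [h𝔓𝔮]; exact h2
      rwa [Ideal.mem_comap, map_natCast] at h3
    obtain ⟨σ, hσ⟩ := exists_frob_pow hp a h𝔓 hp𝔓
    refine ⟨AlgEquiv.restrictNormalHom F σ, ⟨σ, ⟨𝔓, hσ⟩, rfl⟩, ?_⟩
    have h3 := frob_restrict' (E := F) hσ
    rwa [h𝔓𝔮] at h3
  have hSk : S.ncard ≤ k * D ^ R := by
    refine le_trans ?_ (kerL_count (p := p) (q := p ^ a) (fixE K E) B hDB hk hspan)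
    apply ncard_image_le_of_factor (Set.toFinite _)
    intro σ _ σ' _ h
    have h1 : σ⁻¹ * σ' ∈ M₀ := QuotientGroup.eq.mp h
    show AlgEquiv.restrictNormalHom F σ = AlgEquiv.restrictNormalHom F σ'
    apply AlgEquiv.ext
    intro y
    apply hinj
    have h2 : algebraMap F K (AlgEquiv.restrictNormalHom F σ y) = σ (algebraMap F K y) :=
      AlgEquiv.restrictNormal_commutes σ F y
    have h3 : algebraMap F K (AlgEquiv.restrictNormalHom F σ' y) = σ' (algebraMap F K y) :=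
      AlgEquiv.restrictNormal_commutes σ' F y
    have h4 : (σ⁻¹ * σ') (algebraMap F K y) = algebraMap F K y :=
      (IntermediateField.mem_fixedField_iff M₀ _).mp y.2 _ h1
    rw [h2, h3]
    conv_lhs => rw [← h4, ← AlgEquiv.mul_apply, mul_inv_cancel_left]
  have h1 := hmain F p a hp ha (eE * D ^ R) (fun 𝔓 h𝔓 hp𝔓 e he =>
    (ram_le (E := E) hp.ne_zero hunE h𝔓 hp𝔓 he).trans (Nat.mul_le_mul_left _ hdeg)) S hSc hSF (k * D ^ R) hSk β' hβ'U hβ'root
  have h2 : (finrank ℚ K : ℝ) = finrank ℚ F * finrank F K := by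
    rw [← Module.finrank_mul_finrank ℚ F K]
    push_cast
    rfl
  have h3 : lam β = finrank F K * lam β' := lam_sub (E := F) β'
  have h4 : (0:ℝ) ≤ finrank F K := Nat.cast_nonneg _
  set W : ℝ := C * (p : ℝ) ^ (a + 1) * ((eE * D ^ R : ℕ) : ℝ) *
      (((k * D ^ R : ℕ) : ℝ) * Real.exp (9 * Real.sqrt (Real.log (2 * ((k * D ^ R : ℕ) : ℝ))))) with hW
  have hW0 : 0 ≤ W := by positivity
  calc (finrank ℚ K : ℝ) = finrank ℚ F * finrank F K := h2
    _ ≤ (W * lam β') * finrank F K := mul_le_mul_of_nonneg_right h1 h4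
    _ = W * lam β := by rw [h3]; ring
    _ ≤ W * (D * lam α) := mul_le_mul_of_nonneg_left hβlam hW0

end Pool.Agent.Run7.h816.MG
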