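import Mathlib
import Pool.Agent.Run7.h816.MG.Ram7

/-!
# Units of bounded degree over a Galois field with few Frobenius automorphisms, any ramification
-/

set_option autoImplicit false

open Finset Module NumberField

namespace Pool.Agent.Run7.h816.MG

open Pool.Agent.H388SL Pool.Agent.Run7.h22

/-- the numerical part -/
lemma rel_num' {k D : ℕ} (hk : 1 ≤ k) (hD : 1 ≤ D) {s : ℝ}
    (hs : s = Real.sqrt (Real.log (2 * k) * Real.log (2 * D))) :
    ∃ r T : ℕ, 1 ≤ r ∧ 0 < s ∧ ((D : ℝ) ^ (r - 1) ≤ Real.exp s) ∧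
      256 * ((k * D ^ (3 * r) : ℕ) : ℝ) ^ 2 ≤ (T : ℝ) ^ r ∧
      16 * ((k * D ^ (3 * r) : ℕ) : ℝ) * (r * T) ≤ 8224 * ((D : ℝ) ^ 9 * k * Real.exp (6 * s)) ∧
      (∀ k₁ k₀ : ℝ, 1 ≤ k₁ → k₁ ≤ k → 1 ≤ k₀ → k₀ ≤ k₁ * Real.exp s →
        k₀ * Real.exp (9 * Real.sqrt (Real.log (2 * k₀))) ≤ k₁ * Real.exp (16.3 * s)) := by
  have hl2 : (0.6931471803 : ℝ) < Real.log 2 := Real.log_two_gt_d9
  have hkR : (1:ℝ) ≤ k := by exact_mod_cast hk
  have hDR : (1:ℝ) ≤ D := by exact_mod_cast hD
  set A := Real.log (2 * k) with hA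
  set E := Real.log (2 * D) with hE
  have hA2 : Real.log 2 ≤ A := Real.log_le_log (by norm_num) (by linarith)
  have hE2 : Real.log 2 ≤ E := Real.log_le_log (by norm_num) (by linarith)
  have hA0 : 0 < A := by linarith
  have hE0 : 0 < E := by linarith
  have hs0 : 0 < s := by rw [hs]; exact Real.sqrt_pos.mpr (mul_pos hA0 hE0)
  have hs2 : s ^ 2 = A * E := by rw [hs]; exact Real.sq_sqrt (mul_pos hA0 hE0).le
  set t := s / E with ht
  have ht0 : 0 < t := by positivity
  have htE : t * E = s := by rw [ht]; field_simp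
  have hst : s * t = A := by rw [ht, ← mul_div_assoc, ← sq, hs2]; field_simp
  have hsl : Real.log 2 ≤ s := by
    have h1 : Real.log 2 ^ 2 ≤ s ^ 2 := by
      rw [hs2, sq]
      exact mul_le_mul hA2 hE2 (by linarith) hA0.le
    exact (pow_le_pow_iff_left₀ (by linarith) hs0.le two_ne_zero).mp h1
  set r := ⌈t⌉₊ with hr
  have hr1 : t ≤ r := Nat.le_ceil _
  have hr0 : 1 ≤ r := Nat.one_le_ceil_iff.mpr ht0
  have hr2 : (r : ℝ) ≤ t + 1 := (Nat.ceil_lt_add_one ht0.le).le
  have hkA : Real.exp A = 2 * k := by rw [hA, Real.exp_log (by linarith)]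
  have hDexp : (D : ℝ) ≤ Real.exp E := by rw [hE, Real.exp_log (by linarith)]; linarith
  have hDr : (D : ℝ) ^ (r - 1) ≤ Real.exp s := by
    calc (D : ℝ) ^ (r - 1) ≤ Real.exp E ^ (r - 1) := pow_le_pow_left₀ (by linarith) hDexp _
      _ = Real.exp (((r - 1 : ℕ) : ℝ) * E) := by rw [Real.exp_nat_mul]
      _ ≤ Real.exp s := by
          apply Real.exp_le_exp.mpr
          rw [← htE]
          apply mul_le_mul_of_nonneg_right _ hE0.le
          rw [Nat.cast_sub hr0, Nat.cast_one]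
          linarith
  refine ⟨r, ⌈256 * (D : ℝ) ^ 6 * Real.exp (2 * s)⌉₊, hr0, hs0, hDr, ?_, ?_, ?_⟩
  · have hT : 256 * (D : ℝ) ^ 6 * Real.exp (2 * s) ≤
        (⌈256 * (D : ℝ) ^ 6 * Real.exp (2 * s)⌉₊ : ℝ) := Nat.le_ceil _
    have h1 := pow_le_pow_left₀ (by positivity) hT r
    refine le_trans ?_ h1
    have h2 : (256:ℝ) ≤ 256 ^ r := by
      calc (256:ℝ) = 256 ^ 1 := (pow_one _).symm
        _ ≤ 256 ^ r := pow_le_pow_right₀ (by norm_num) hr0
    have h3 : (k : ℝ) ^ 2 ≤ Real.exp (2 * s) ^ r := by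
      rw [← Real.exp_nat_mul]
      calc (k : ℝ) ^ 2 ≤ (2 * k) ^ 2 := by nlinarith
        _ = Real.exp (2 * A) := by rw [← hkA, ← Real.exp_nat_mul]; push_cast; rfl
        _ ≤ Real.exp (r * (2 * s)) := by
            apply Real.exp_le_exp.mpr
            nlinarith
    push_cast
    calc 256 * ((k : ℝ) * D ^ (3 * r)) ^ 2 = 256 * ((D : ℝ) ^ (3 * r)) ^ 2 * (k : ℝ) ^ 2 := by ring
      _ ≤ 256 ^ r * ((D : ℝ) ^ (3 * r)) ^ 2 * Real.exp (2 * s) ^ r := by
          apply mul_le_mul _ h3 (by positivity) (by positivity)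
          exact mul_le_mul_of_nonneg_right h2 (by positivity)
      _ = (256 * (D : ℝ) ^ 6 * Real.exp (2 * s)) ^ r := by
          rw [mul_pow, mul_pow, ← pow_mul, ← pow_mul]
          congr 3
          ring
  · have hT : (⌈256 * (D : ℝ) ^ 6 * Real.exp (2 * s)⌉₊ : ℝ) ≤
        257 * ((D : ℝ) ^ 6 * Real.exp (2 * s)) := by
      have h1 := (Nat.ceil_lt_add_one (show 0 ≤ 256 * (D : ℝ) ^ 6 * Real.exp (2 * s) by positivity)).le
      have h2 : 1 ≤ Real.exp (2 * s) := Real.one_le_exp (by positivity)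
      have h2' : (1:ℝ) ≤ (D : ℝ) ^ 6 := one_le_pow₀ hDR
      have h3 : 1 ≤ (D : ℝ) ^ 6 * Real.exp (2 * s) := by nlinarith
      linarith
    have hrs : (r : ℝ) ≤ 2 * Real.exp s := by
      have h1 := Real.add_one_le_exp s
      have h2 : t ≤ 1.45 * s := by
        have h3 : s = t * E := htE.symm
        nlinarith
      linarith
    have hDr' : (D : ℝ) ^ (3 * r) ≤ D ^ 3 * Real.exp (3 * s) := by
      have h1 : (D : ℝ) ^ (3 * r) = D ^ 3 * ((D : ℝ) ^ (r - 1)) ^ 3 := by
        rw [← pow_mul, ← pow_add]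
        congr 1
        omega
      rw [h1]
      apply mul_le_mul_of_nonneg_left _ (by positivity)
      have h2 := pow_le_pow_left₀ (by positivity) hDr 3
      rw [← Real.exp_nat_mul] at h2
      exact_mod_cast h2
    have he := Real.exp_pos s
    push_cast
    calc 16 * ((k : ℝ) * D ^ (3 * r)) * (r * (⌈256 * (D : ℝ) ^ 6 * Real.exp (2 * s)⌉₊ : ℝ))
        ≤ 16 * ((k : ℝ) * (D ^ 3 * Real.exp (3 * s))) *
          ((2 * Real.exp s) * (257 * ((D : ℝ) ^ 6 * Real.exp (2 * s)))) := by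
          apply mul_le_mul
          · apply mul_le_mul_of_nonneg_left _ (by norm_num)
            exact mul_le_mul_of_nonneg_left hDr' (by linarith)
          · exact mul_le_mul hrs hT (Nat.cast_nonneg _) (by positivity)
          · positivity
          · positivity
      _ = 8224 * ((D : ℝ) ^ 9 * k * (Real.exp (3 * s) * Real.exp s * Real.exp (2 * s))) := by ring
      _ = 8224 * ((D : ℝ) ^ 9 * k * Real.exp (6 * s)) := by
          rw [← Real.exp_add, ← Real.exp_add]
          congr 3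
          ring
  · intro k₁ k₀ hk₁ hk₁' hk₀ hk₀'
    have h1 : Real.log (2 * k₀) ≤ A + s := by
      have h2 : Real.log (2 * k₀) ≤ Real.log ((2 * k) * Real.exp s) := by
        apply Real.log_le_log (by linarith)
        calc 2 * k₀ ≤ 2 * (k₁ * Real.exp s) := by linarith
          _ ≤ 2 * (k * Real.exp s) := by gcongr
          _ = (2 * k) * Real.exp s := by ring
      rwa [Real.log_mul (by positivity) (Real.exp_pos s).ne', Real.log_exp] at h2
    have h2 : A + s ≤ (1.7 * s) ^ 2 := by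
      have h3 : A * Real.log 2 ≤ s ^ 2 := by rw [hs2]; exact mul_le_mul_of_nonneg_left hE2 hA0.le
      have h4 : s * Real.log 2 ≤ s ^ 2 := by rw [sq]; exact mul_le_mul_of_nonneg_left hsl hs0.le
      nlinarith
    have h3 : Real.sqrt (Real.log (2 * k₀)) ≤ 1.7 * s := by
      calc Real.sqrt (Real.log (2 * k₀)) ≤ Real.sqrt ((1.7 * s) ^ 2) := Real.sqrt_le_sqrt (h1.trans h2)
        _ = 1.7 * s := Real.sqrt_sq (by positivity)
    calc k₀ * Real.exp (9 * Real.sqrt (Real.log (2 * k₀)))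
        ≤ (k₁ * Real.exp s) * Real.exp (15.3 * s) := by
          apply mul_le_mul hk₀' _ (Real.exp_pos _).le (by positivity)
          apply Real.exp_le_exp.mpr
          linarith
      _ = k₁ * Real.exp (16.3 * s) := by
          rw [mul_assoc, ← Real.exp_add]
          congr 2
          ring

/-- **Units of bounded degree over a Galois field with few Frobenius automorphisms.** Let `K` be a
Galois number field, `E` a normal subfield in which the ramification index of `p` is at most `eE`, and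
`α` a unit of `K` which is not a root of unity, with at most `D` conjugates over `E`, and let there be
at most `k` restrictions to `E` of Frobenius automorphisms. There is no condition on the ramification
of `p` in `K`. -/
theorem rel_main' : ∃ C : ℝ, 0 < C ∧ ∀ (K : Type) [Field K] [NumberField K] [IsGalois ℚ K]
    (E : Type) [Field E] [NumberField E] [IsGalois ℚ E] [Algebra E K] (p a : ℕ),
    p.Prime → 1 ≤ a → ∀ eE : ℕ, 1 ≤ eE →
    (∀ 𝔮 : Ideal (𝓞 E), 𝔮.IsPrime → (p : 𝓞 E) ∈ 𝔮 → (p : 𝓞 E) ∉ 𝔮 ^ (eE + 1)) →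
    ∀ (α : K), IsU α → (∀ n : ℕ, 0 < n → α ^ n ≠ 1) →
    ∀ (D k : ℕ), (orbN (fixE K E) α).ncard ≤ D → (frobMod p (p ^ a) (fixE K E)).ncard ≤ k →
    (finrank ℚ K : ℝ) ≤ C * (p : ℝ) ^ (a + 1) * ((D : ℝ) ^ 9 * ((eE * k : ℕ) : ℝ) *
      Real.exp (18 * Real.sqrt (Real.log (2 * ((eE * k : ℕ) : ℝ)) * Real.log (2 * D)))) * lam α := by
  classical
  obtain ⟨C, hC, hmain⟩ := low_rank
  refine ⟨16448 + C, by positivity, ?_⟩
  intro K _ _ _ E _ _ _ _ p a hp ha eE heE hunE α hα hroot D k hD hk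
  have hNn : (fixE K E).Normal := fixE_normal E
  set N := fixE K E with hNdef
  have hp1 : (1:ℝ) < p := by exact_mod_cast hp.one_lt
  have hlam : 0 < lam α := lam_pos hα.2.1 hα.1 hroot
  have hD1 : 1 ≤ D := by
    have h1 : (orbN N α).Nonempty := ⟨α, 1, N.one_mem, rfl⟩
    exact ((Set.ncard_pos (orbN_finite N α)).mpr h1).trans_le hD
  have hfrob : (frobSet K p (p ^ a)).Nonempty := by
    obtain ⟨_, Φ, ⟨𝔓, h𝔓⟩, hF, _⟩ := exists_class' (K := K) hp (fun _ => (0 : ℕ)) {0} le_rfl (by simp)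
    obtain ⟨σ, hσ⟩ := exists_frob_pow hp a (hF 𝔓 h𝔓).1 (hF 𝔓 h𝔓).2.1
    exact ⟨σ, 𝔓, hσ⟩
  have hk1 : 1 ≤ k := by
    have h1 : (frobMod p (p ^ a) N).Nonempty := hfrob.image _
    exact ((Set.ncard_pos (Set.toFinite _)).mpr h1).trans_le hk
  set κ : ℕ := eE * k with hκ
  have hκ1 : 1 ≤ κ := Nat.mul_pos heE hk1
  set s := Real.sqrt (Real.log (2 * (κ : ℝ)) * Real.log (2 * D)) with hs
  obtain ⟨r, T, hr1, hs0, hDr, hT, hhigh, hlow⟩ := rel_num' hκ1 hD1 hs
  have hkR : (1:ℝ) ≤ k := by exact_mod_cast hk1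
  have heR : (1:ℝ) ≤ eE := by exact_mod_cast heE
  have hκR : (κ : ℝ) = eE * k := by rw [hκ]; push_cast; ring
  have hkκ : (k : ℝ) ≤ κ := by rw [hκR]; nlinarith
  have hDR : (1:ℝ) ≤ D := by exact_mod_cast hD1
  -- a maximal independent family of conjugates
  set V : Set ((K →ₐ[ℚ] ℂ) → ℝ) := Set.range (fun g : K ≃ₐ[ℚ] K => lg (g α)) with hV
  obtain ⟨b, hbV, hspan, hbind⟩ := exists_linearIndependent ℚ V
  have hbfin : b.Finite := (Set.finite_range _).subset hbV
  set R := b.ncard with hR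
  have : Fintype b := hbfin.fintype
  have hcard : Fintype.card b = R := by rw [hR, Set.ncard_eq_toFinset_card' b, Set.toFinset_card]
  have e : Fin R ≃ b := (Fintype.equivFinOfCardEq hcard).symm
  have hex : ∀ j : Fin R, ∃ g : K ≃ₐ[ℚ] K, lg (g α) = (e j : (K →ₐ[ℚ] ℂ) → ℝ) := fun j => hbV (e j).2
  choose g hg using hex
  set B : Fin R → K := fun j => g j α with hB
  have hindQ : LinearIndependent ℚ (fun j => lg (B j)) := by
    have h1 := hbind.comp e e.injective
    have h2 : (fun j => lg (B j)) = (Subtype.val : b → (K →ₐ[ℚ] ℂ) → ℝ) ∘ e := by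
      funext j
      exact hg j
    rw [h2]
    exact h1
  have hindZ : LinearIndependent ℤ (fun j => lg (B j)) :=
    hindQ.restrict_scalars (by
      intro x y hxy
      have : (x : ℚ) = y := by simpa using hxy
      exact_mod_cast this)
  have hIsU : ∀ j, IsU (B j) := fun j => hα.aut (g j)
  have hlamB : ∀ j, lam (B j) = lam α := fun j => lam_aut _ _
  have hDB0 : ∀ j, (orbN N (B j)).ncard ≤ D := fun j => (orbN_conj N _ α).trans hD
  have hp2 : (2:ℝ) ≤ (p : ℝ) ^ a := by
    calc (2:ℝ) ≤ p := by exact_mod_cast hp.two_le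
      _ = (p : ℝ) ^ 1 := (pow_one _).symm
      _ ≤ (p : ℝ) ^ a := pow_le_pow_right₀ hp1.le ha
  have hpa2 : (p : ℝ) ^ a ≤ (p : ℝ) ^ (a + 1) := pow_le_pow_right₀ hp1.le (by omega)
  have hW : 0 ≤ (p : ℝ) ^ (a + 1) * ((D : ℝ) ^ 9 * κ * Real.exp (18 * s)) * lam α := by positivity
  rcases le_or_gt r R with hrR | hrR
  · -- many independent conjugates
    have hemb : Function.Injective (Fin.castLE hrR) := Fin.castLE_injective hrR
    have hind' : LinearIndependent ℤ (fun j : Fin r => lg (B (Fin.castLE hrR j))) :=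
      hindZ.comp _ hemb
    have hDB : ∀ j : Fin r, (orbN N (B (Fin.castLE hrR j))).ncard ≤ D := fun j => hDB0 _
    have hcount : ((fun σ : K ≃ₐ[ℚ] K => fun j : Fin r => σ (B (Fin.castLE hrR j))) ''
        frobSet K p (p ^ a)).ncard ≤ k * D ^ r := by
      refine le_trans ?_ (tuple_count N (frobSet K p (p ^ a)) (fun j => B (Fin.castLE hrR j)) hDB hk)
      apply ncard_image_le_of_factor (Set.toFinite _)
      intro σ _ σ' _ h
      exact congrArg Prod.snd h
    have h1 := high_rank' (E := E) hp ha heE hunE N (fun x hx => fixE_fixed E x hx)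
      (fun j => B (Fin.castLE hrR j)) (fun j => hIsU _)
      (Λ := lam α) (fun j => (hlamB _).le) hind' hDB hcount
      (M := κ * D ^ (3 * r)) (by rw [hκ, show 3 * r = r + 2 * r by ring, pow_add]; ring) hT
    calc (finrank ℚ K : ℝ) ≤ 16 * ((κ * D ^ (3 * r) : ℕ) : ℝ) * (r * T * ((p : ℝ) ^ a + 1) * lam α) := h1
      _ = (16 * ((κ * D ^ (3 * r) : ℕ) : ℝ) * (r * T)) * (((p : ℝ) ^ a + 1) * lam α) := by ring
      _ ≤ (8224 * ((D : ℝ) ^ 9 * κ * Real.exp (6 * s))) * ((2 * (p : ℝ) ^ (a + 1)) * lam α) := by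
          apply mul_le_mul hhigh _ (by positivity) (by positivity)
          apply mul_le_mul_of_nonneg_right _ hlam.le
          linarith
      _ = 16448 * ((p : ℝ) ^ (a + 1) * ((D : ℝ) ^ 9 * κ * Real.exp (6 * s)) * lam α) := by ring
      _ ≤ 16448 * ((p : ℝ) ^ (a + 1) * ((D : ℝ) ^ 9 * κ * Real.exp (18 * s)) * lam α) := by
          have h2 : Real.exp (6 * s) ≤ Real.exp (18 * s) := Real.exp_le_exp.mpr (by linarith)
          gcongr
      _ ≤ (16448 + C) * ((p : ℝ) ^ (a + 1) * ((D : ℝ) ^ 9 * κ * Real.exp (18 * s)) * lam α) := by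
          apply mul_le_mul_of_nonneg_right _ hW
          linarith
      _ = _ := by ring
  · -- few independent conjugates
    have hspan' : ∀ g' : K ≃ₐ[ℚ] K, lg (g' α) ∈ Submodule.span ℚ (Set.range fun j => lg (B j)) := by
      intro g'
      have h1 : lg (g' α) ∈ Submodule.span ℚ V := Submodule.subset_span ⟨g', rfl⟩
      rw [← hspan] at h1
      have h2 : (Set.range fun j => lg (B j)) = b := by
        ext v
        constructor
        · rintro ⟨j, rfl⟩
          show lg (B j) ∈ b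
          rw [hB]
          simp only [hg]
          exact (e j).2
        · intro hv
          refine ⟨e.symm ⟨v, hv⟩, ?_⟩
          show lg (g _ α) = v
          rw [hg, Equiv.apply_symm_apply]
      rw [h2]
      exact h1
    have h1 := hmain K E p a hp ha eE hunE α hα hroot D k R B hD hk hDB0 hspan'
    have hDR' : ((D ^ R : ℕ) : ℝ) ≤ Real.exp s := by
      push_cast
      refine le_trans ?_ hDr
      exact pow_le_pow_right₀ hDR (by omega)
    have hk₀1 : (1:ℝ) ≤ ((k * D ^ R : ℕ) : ℝ) := by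
      have h2 : 1 ≤ k * D ^ R := Nat.mul_pos hk1 (Nat.pow_pos hD1)
      exact_mod_cast h2
    have hk₀2 : ((k * D ^ R : ℕ) : ℝ) ≤ k * Real.exp s := by
      rw [Nat.cast_mul]
      exact mul_le_mul_of_nonneg_left hDR' (by linarith)
    have h2 := hlow k _ hkR hkκ hk₀1 hk₀2
    have hDR2 : ((eE * D ^ R : ℕ) : ℝ) ≤ eE * Real.exp s := by
      rw [Nat.cast_mul]
      exact mul_le_mul_of_nonneg_left hDR' (by linarith)
    calc (finrank ℚ K : ℝ) ≤ C * (p : ℝ) ^ (a + 1) * ((eE * D ^ R : ℕ) : ℝ) *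
          (((k * D ^ R : ℕ) : ℝ) * Real.exp (9 * Real.sqrt (Real.log (2 * ((k * D ^ R : ℕ) : ℝ))))) *
            (D * lam α) := h1
      _ ≤ C * (p : ℝ) ^ (a + 1) * (eE * Real.exp s) * (k * Real.exp (16.3 * s)) * ((D : ℝ) ^ 9 * lam α) := by
          apply mul_le_mul
          · apply mul_le_mul _ h2 (by positivity) (by positivity)
            exact mul_le_mul_of_nonneg_left hDR2 (by positivity)
          · apply mul_le_mul_of_nonneg_right _ hlam.le
            calc (D : ℝ) = D ^ 1 := (pow_one _).symm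
              _ ≤ (D : ℝ) ^ 9 := pow_le_pow_right₀ hDR (by norm_num)
          · positivity
          · positivity
      _ = C * ((p : ℝ) ^ (a + 1) * ((D : ℝ) ^ 9 * κ * (Real.exp s * Real.exp (16.3 * s))) * lam α) := by
          rw [hκR]
          ring
      _ ≤ C * ((p : ℝ) ^ (a + 1) * ((D : ℝ) ^ 9 * κ * Real.exp (18 * s)) * lam α) := by
          have h3 : Real.exp s * Real.exp (16.3 * s) ≤ Real.exp (18 * s) := by
            rw [← Real.exp_add]
            exact Real.exp_le_exp.mpr (by linarith)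
          gcongr
      _ ≤ (16448 + C) * ((p : ℝ) ^ (a + 1) * ((D : ℝ) ^ 9 * κ * Real.exp (18 * s)) * lam α) := by
          apply mul_le_mul_of_nonneg_right _ hW
          linarith
      _ = _ := by ring

end Pool.Agent.Run7.h816.MG
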